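import Pool.Agent.H41.PM.Rel
import Pool.Agent.H41.BC.G

/-! # Project PM: the density of the zones is admissible -/

set_option autoImplicit false

open MeasureTheory Filter Topology Set

namespace Pool.Agent.H41.PM

section
variable {b d X : ℕ → ℝ}

lemma f_cont : Continuous BC.f := by
  unfold BC.f
  refine Real.continuous_exp.div (continuous_id.max continuous_const) fun v => ?_
  have : (1 : ℝ) ≤ max v 1 := le_max_right _ _
  have h2 : (0 : ℝ) < max v 1 := by linarith
  exact h2.ne'

lemma f_eq {v : ℝ} (hv : 1 ≤ v) : BC.f v = Real.exp v / v := by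
  unfold BC.f
  rw [max_eq_left hv]

lemma f_nonneg (v : ℝ) : 0 ≤ BC.f v := by
  unfold BC.f
  positivity

lemma rel_le (H : Zones b d X) {v : ℝ} (hv : 4 ≤ v) : rel b d X (Real.exp v) ≤ 2 * v := by
  rcases rel_alt H (x := Real.exp v) (Real.exp_pos v).le with h | ⟨j, h1, h2⟩
  · rw [h _ ⟨le_rfl, by linarith [Real.exp_pos v]⟩]
    linarith
  · rw [rel_near H h1 (by linarith [H.X_big j])]
    have a1 := phi_nonneg (X j) (Real.log (X j) ^ b j) (Real.exp v)
    have a2 := phi_le_one (X j) (Real.log (X j) ^ b j) (Real.exp v)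
    have a3 := H.d_nonneg j
    have a4 := H.d_le j
    have hX := H.X_big j
    have a5 : Real.log (X j) ≤ v + Real.log 4 := by
      rw [← Real.log_exp v, ← Real.log_mul (Real.exp_pos v).ne' (by norm_num)]
      exact Real.log_le_log (by linarith) (by linarith)
    have a6 : Real.log 4 ≤ 2 := by
      rw [show (4 : ℝ) = 2 ^ 2 by norm_num, Real.log_pow]
      have := Real.log_two_lt_d9
      push_cast
      linarith
    have a7 : (d j - 1) * phi (X j) (Real.log (X j) ^ b j) (Real.exp v) ≤ d j := by nlinarith
    linarith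

lemma rel_int (H : Zones b d X) {x : ℝ} (hx : 0 ≤ x) : x / 2 ≤ ∫ t in x..2 * x, rel b d X t := by
  have hxx : x ≤ 2 * x := by linarith
  rcases rel_alt H hx with h | ⟨j, h1, h2⟩
  · rw [intervalIntegral.integral_congr (g := fun _ => (1 : ℝ)) (fun t ht => h t (by rwa [uIcc_of_le hxx] at ht)),
      intervalIntegral.integral_const]
    simp only [smul_eq_mul, mul_one]
    linarith
  · have hX := H.X_big j
    have e1 : ∫ t in x..2 * x, rel b d X t = ∫ t in x..2 * x, (1 + (d j - 1) * phi (X j) (Real.log (X j) ^ b j) t) := by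
      apply intervalIntegral.integral_congr
      intro t ht
      rw [uIcc_of_le hxx] at ht
      exact rel_near H (by linarith [ht.1]) (by linarith [ht.2])
    have hI : IntervalIntegrable (phi (X j) (Real.log (X j) ^ b j)) volume x (2 * x) :=
      (phi_cont _ _).intervalIntegrable _ _
    rw [e1, intervalIntegral.integral_add intervalIntegrable_const (hI.const_mul _), intervalIntegral.integral_const,
      intervalIntegral.integral_const_mul]
    obtain ⟨p1, p2⟩ := phi_int (x := X j) (H.H_nonneg j) hxx
    have p3 := H.short' j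
    have p4 := H.d_nonneg j
    simp only [smul_eq_mul, mul_one]
    nlinarith

lemma dens_mass (H : Zones b d X) {v : ℝ} (hv : 4 ≤ v) :
    1 ≤ ∫ w in v..v + 1, rel b d X (Real.exp w) * BC.f w := by
  have hl0 : 0 < Real.log 2 := Real.log_pos (by norm_num)
  have hl1 : Real.log 2 < 1 := by have := Real.log_two_lt_d9; linarith
  have hc : Continuous fun w => rel b d X (Real.exp w) * BC.f w :=
    ((rel_cont H).comp Real.continuous_exp).mul f_cont
  have hnn : ∀ w, 0 ≤ rel b d X (Real.exp w) * BC.f w := fun w => mul_nonneg (rel_nonneg H _) (f_nonneg w)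
  have s1 : ∫ w in v..v + 1, rel b d X (Real.exp w) * BC.f w =
      (∫ w in v..v + Real.log 2, rel b d X (Real.exp w) * BC.f w) +
      ∫ w in v + Real.log 2..v + 1, rel b d X (Real.exp w) * BC.f w :=
    (intervalIntegral.integral_add_adjacent_intervals (hc.intervalIntegrable _ _) (hc.intervalIntegrable _ _)).symm
  have s2 : 0 ≤ ∫ w in v + Real.log 2..v + 1, rel b d X (Real.exp w) * BC.f w :=
    intervalIntegral.integral_nonneg (by linarith) fun w _ => hnn w
  have hc2 : Continuous fun w => (v + 1)⁻¹ * (rel b d X (Real.exp w) * Real.exp w) :=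
    continuous_const.mul (((rel_cont H).comp Real.continuous_exp).mul Real.continuous_exp)
  have s3 : ∫ w in v..v + Real.log 2, (v + 1)⁻¹ * (rel b d X (Real.exp w) * Real.exp w) ≤
      ∫ w in v..v + Real.log 2, rel b d X (Real.exp w) * BC.f w := by
    apply intervalIntegral.integral_mono_on (by linarith) (hc2.intervalIntegrable _ _) (hc.intervalIntegrable _ _)
    intro w hw
    have hw1 : 0 < w := by linarith [hw.1]
    rw [f_eq (by linarith [hw.1])]
    have h1 : (v + 1)⁻¹ ≤ w⁻¹ := by
      apply inv_anti₀ hw1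
      linarith [hw.2]
    have h2 : 0 ≤ rel b d X (Real.exp w) * Real.exp w := mul_nonneg (rel_nonneg H _) (Real.exp_pos w).le
    calc (v + 1)⁻¹ * (rel b d X (Real.exp w) * Real.exp w) ≤ w⁻¹ * (rel b d X (Real.exp w) * Real.exp w) :=
          mul_le_mul_of_nonneg_right h1 h2
      _ = rel b d X (Real.exp w) * (Real.exp w / w) := by ring
  have s4 : ∫ w in v..v + Real.log 2, rel b d X (Real.exp w) * Real.exp w = ∫ t in Real.exp v..2 * Real.exp v, rel b d X t := by
    have e : Real.exp (v + Real.log 2) = 2 * Real.exp v := by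
      rw [Real.exp_add, Real.exp_log (by norm_num), mul_comm]
    rw [← e]
    exact intervalIntegral.integral_comp_mul_deriv (g := rel b d X) (fun w _ => Real.hasDerivAt_exp w)
      Real.continuous_exp.continuousOn (rel_cont H)
  rw [intervalIntegral.integral_const_mul, s4] at s3
  have s5 := rel_int H (Real.exp_pos v).le
  have s6 : 2 * (v + 1) ≤ Real.exp v := by
    have := Real.quadratic_le_exp_of_nonneg (show 0 ≤ v by linarith)
    nlinarith
  have s7 : 1 ≤ (v + 1)⁻¹ * (Real.exp v / 2) := by
    rw [inv_mul_eq_div, le_div_iff₀ (by linarith)]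
    linarith
  have s8 : (v + 1)⁻¹ * (Real.exp v / 2) ≤ (v + 1)⁻¹ * ∫ t in Real.exp v..2 * Real.exp v, rel b d X t :=
    mul_le_mul_of_nonneg_left s5 (by positivity)
  linarith

/-- the contribution of the zone `j` -/
noncomputable def T (b d X : ℕ → ℝ) (j : ℕ) (v : ℝ) : ℝ :=
  |d j - 1| * phi (X j) (Real.log (X j) ^ b j) (Real.exp v) * Real.exp (v / 2)

lemma T_nonneg (j : ℕ) (v : ℝ) : 0 ≤ T b d X j v :=
  mul_nonneg (mul_nonneg (abs_nonneg _) (phi_nonneg _ _ _)) (Real.exp_pos _).le

lemma T_lint (H : Zones b d X) (j : ℕ) :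
    ∫⁻ v, ENNReal.ofReal (T b d X j v) ≤ ENNReal.ofReal (4 * ((16 : ℝ) ^ (-(1 / 6) : ℝ)) ^ j) := by
  have hX := H.X_big j
  have hs := H.short' j
  have hH := H.H_nonneg j
  have hd := H.d_nonneg j
  set L := Real.log (X j) ^ b j with hL
  set s := Real.log (X j - 1) with hs'
  set t := Real.log (X j + L + 1) with ht'
  set M := (1 + d j) * √(2 * X j) with hM
  have hM0 : 0 ≤ M := by positivity
  have h1 : ∀ v, ENNReal.ofReal (T b d X j v) ≤ (Icc s t).indicator (fun _ => ENNReal.ofReal M) v := by
    intro v
    by_cases hv : v ∈ Icc s t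
    · rw [indicator_of_mem hv]
      apply ENNReal.ofReal_le_ofReal
      unfold T
      have a1 : |d j - 1| ≤ 1 + d j := by
        rw [abs_le]
        constructor <;> linarith
      have a2 := phi_le_one (X j) L (Real.exp v)
      have a2' := phi_nonneg (X j) L (Real.exp v)
      have a3 : Real.exp (v / 2) ≤ √(2 * X j) := by
        rw [Real.exp_half]
        apply Real.sqrt_le_sqrt
        have : Real.exp v ≤ X j + L + 1 := by
          rw [← Real.exp_log (show 0 < X j + L + 1 by linarith)]
          exact Real.exp_le_exp.2 hv.2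
        linarith
      calc |d j - 1| * phi (X j) L (Real.exp v) * Real.exp (v / 2) ≤ (1 + d j) * 1 * √(2 * X j) := by
            gcongr
        _ = M := by rw [hM]; ring
    · rw [indicator_of_notMem hv]
      have : phi (X j) L (Real.exp v) = 0 := by
        apply phi_eq_zero
        rw [mem_Icc, not_and_or] at hv
        rcases hv with hv | hv
        · left
          push Not at hv
          rw [← Real.exp_log (show 0 < X j - 1 by linarith)]
          exact Real.exp_le_exp.2 hv.le
        · right
          push Not at hv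
          rw [← Real.exp_log (show 0 < X j + L + 1 by linarith)]
          exact Real.exp_le_exp.2 hv.le
      unfold T
      rw [← hL, this, mul_zero, zero_mul, ENNReal.ofReal_zero]
  refine (lintegral_mono h1).trans ?_
  rw [lintegral_indicator measurableSet_Icc, lintegral_const, Measure.restrict_apply_univ, Real.volume_Icc,
    ← ENNReal.ofReal_mul hM0]
  apply ENNReal.ofReal_le_ofReal
  have h2 : t - s ≤ 2 * (L + 2) / X j := by
    rw [ht', hs', ← Real.log_div (by linarith) (by linarith)]
    have h3 : (X j + L + 1) / (X j - 1) - 1 ≤ 2 * (L + 2) / X j := by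
      have : (X j + L + 1) / (X j - 1) - 1 = (L + 2) / (X j - 1) := by
        rw [div_sub_one (by linarith)]
        congr 1
        ring
      rw [this, div_le_div_iff₀ (by linarith) (by linarith)]
      nlinarith
    exact (Real.log_le_sub_one_of_pos (div_pos (by linarith) (by linarith))).trans h3
  have hc := H.cube j
  rw [← hL] at hc
  have hX0 : 0 < X j := by linarith
  calc M * (t - s) ≤ M * (2 * (L + 2) / X j) := mul_le_mul_of_nonneg_left h2 hM0
    _ = ((1 + d j) * (L + 2)) * (2 * √(2 * X j) / X j) := by rw [hM]; ring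
    _ ≤ X j ^ (1 / 3 : ℝ) * (2 * √(2 * X j) / X j) := mul_le_mul_of_nonneg_right hc (by positivity)
    _ ≤ X j ^ (1 / 3 : ℝ) * (4 * X j ^ (1 / 2 : ℝ) / X j) := by
        apply mul_le_mul_of_nonneg_left _ (by positivity)
        apply div_le_div_of_nonneg_right _ hX0.le
        have : √(2 * X j) ≤ 2 * X j ^ (1 / 2 : ℝ) := by
          rw [← Real.sqrt_eq_rpow, Real.sqrt_mul (by norm_num)]
          apply mul_le_mul_of_nonneg_right _ (Real.sqrt_nonneg _)
          rw [Real.sqrt_le_left (by norm_num)]
          norm_num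
        linarith
    _ = 4 * X j ^ (-(1 / 6) : ℝ) := by
        have e : X j ^ (-(1 / 6) : ℝ) = X j ^ (1 / 3 : ℝ) * X j ^ (1 / 2 : ℝ) / X j := by
          rw [← Real.rpow_add hX0, ← Real.rpow_sub_one hX0.ne']
          norm_num
        rw [e]
        ring
    _ ≤ 4 * ((16 : ℝ) ^ (-(1 / 6) : ℝ)) ^ j := by
        apply mul_le_mul_of_nonneg_left _ (by norm_num)
        rw [← Real.rpow_natCast, ← Real.rpow_mul (by norm_num), mul_comm, Real.rpow_mul (by norm_num), Real.rpow_natCast]
        apply Real.rpow_le_rpow_of_nonpos (by positivity) _ (by norm_num)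
        have := H.X_ge j
        have h8 := exp8
        have h9 : (0 : ℝ) < 16 ^ j := by positivity
        nlinarith

lemma E_int (H : Zones b d X) : Integrable (fun v => |rel b d X (Real.exp v) - 1| * Real.exp (v / 2)) := by
  have hc : Continuous (fun v => |rel b d X (Real.exp v) - 1| * Real.exp (v / 2)) :=
    (((rel_cont H).comp Real.continuous_exp).sub continuous_const).abs.mul
      (Real.continuous_exp.comp (continuous_id.div_const 2))
  refine ⟨hc.aestronglyMeasurable, ?_⟩
  have h1 : ∀ v, ‖|rel b d X (Real.exp v) - 1| * Real.exp (v / 2)‖ₑ ≤ ∑' j, ENNReal.ofReal (T b d X j v) := by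
    intro v
    rw [Real.enorm_eq_ofReal (mul_nonneg (abs_nonneg _) (Real.exp_pos _).le)]
    rcases rel_alt H (x := Real.exp v) (Real.exp_pos v).le with h | ⟨j, h2, h3⟩
    · rw [h _ ⟨le_rfl, by linarith [Real.exp_pos v]⟩]
      simp
    · refine le_trans (le_of_eq ?_) (ENNReal.le_tsum j)
      unfold T
      rw [rel_near H h2 (by linarith [H.X_big j]), add_sub_cancel_left, abs_mul,
        abs_of_nonneg (phi_nonneg (X j) (Real.log (X j) ^ b j) (Real.exp v))]
  unfold HasFiniteIntegral
  refine (lintegral_mono h1).trans_lt ?_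
  rw [lintegral_tsum]
  · refine (ENNReal.tsum_le_tsum (T_lint H)).trans_lt ?_
    have hr0 : (0 : ℝ) ≤ (16 : ℝ) ^ (-(1 / 6) : ℝ) := by positivity
    have hr1 : (16 : ℝ) ^ (-(1 / 6) : ℝ) < 1 := Real.rpow_lt_one_of_one_lt_of_neg (by norm_num) (by norm_num)
    rw [← ENNReal.ofReal_tsum_of_nonneg (fun j => by positivity)
      ((summable_geometric_of_lt_one hr0 hr1).mul_left 4)]
    exact ENNReal.ofReal_lt_top
  · intro j
    have : Continuous (T b d X j) :=
      (continuous_const.mul ((phi_cont _ _).comp Real.continuous_exp)).mul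
        (Real.continuous_exp.comp (continuous_id.div_const 2))
    exact this.measurable.ennreal_ofReal.aemeasurable

theorem zones_dens (H : Zones b d X) : Dens (fun v => rel b d X (Real.exp v) * BC.f v) 4 where
  start := le_rfl
  cont := ((rel_cont H).comp Real.continuous_exp).mul f_cont
  nonneg v _ := mul_nonneg (rel_nonneg H _) (f_nonneg v)
  upper v hv := by
    rw [f_eq (by linarith)]
    have h0 : 0 < v := by linarith
    calc rel b d X (Real.exp v) * (Real.exp v / v) ≤ (2 * v) * (Real.exp v / v) :=
          mul_le_mul_of_nonneg_right (rel_le H hv) (by positivity)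
      _ = 2 * Real.exp v := by field_simp
  mass v hv := dens_mass H hv
  dev σ hσ := by
    have hc : Continuous (fun v => |BC.g v - rel b d X (Real.exp v) * BC.f v| * Real.exp (-(σ * v))) :=
      ((BC.g_cont.sub (((rel_cont H).comp Real.continuous_exp).mul f_cont)).abs).mul
        (Real.continuous_exp.comp (continuous_const.mul continuous_id).neg)
    have h1 : IntegrableOn (fun v : ℝ => Real.exp (-(1 / 2 : ℝ) * v)) (Ici 4) := by
      rw [integrableOn_Ici_iff_integrableOn_Ioi]
      exact integrableOn_exp_mul_Ioi (by norm_num) 4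
    have h2 := (E_int H).integrableOn (s := Ici (4 : ℝ))
    refine Integrable.mono' (h1.add h2) hc.aestronglyMeasurable ?_
    refine (ae_restrict_iff' measurableSet_Ici).2 (Eventually.of_forall fun v hv => ?_)
    have hv : (4 : ℝ) ≤ v := hv
    have h0 : 0 < v := by linarith
    rw [Real.norm_of_nonneg (mul_nonneg (abs_nonneg _) (Real.exp_pos _).le)]
    have e1 : BC.g v - rel b d X (Real.exp v) * BC.f v = -(1 / v) - (rel b d X (Real.exp v) - 1) * (Real.exp v / v) := by
      rw [BC.g_eq h0.ne', f_eq (by linarith)]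
      ring
    have e2 : |BC.g v - rel b d X (Real.exp v) * BC.f v| ≤ 1 + |rel b d X (Real.exp v) - 1| * Real.exp v := by
      rw [e1]
      refine (abs_sub _ _).trans ?_
      rw [abs_neg, abs_mul, abs_of_pos (show 0 < 1 / v by positivity), abs_of_pos (show 0 < Real.exp v / v by positivity)]
      have a1 : 1 / v ≤ 1 := by rw [div_le_one h0]; linarith
      have a2 : Real.exp v / v ≤ Real.exp v := div_le_self (Real.exp_pos v).le (by linarith)
      have a3 := mul_le_mul_of_nonneg_left a2 (abs_nonneg (rel b d X (Real.exp v) - 1))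
      linarith
    have e3 : Real.exp (-(σ * v)) ≤ Real.exp (-(1 / 2 : ℝ) * v) := by
      apply Real.exp_le_exp.2
      nlinarith
    calc |BC.g v - rel b d X (Real.exp v) * BC.f v| * Real.exp (-(σ * v)) ≤
        (1 + |rel b d X (Real.exp v) - 1| * Real.exp v) * Real.exp (-(1 / 2 : ℝ) * v) :=
          mul_le_mul e2 e3 (Real.exp_pos _).le (by positivity)
      _ = Real.exp (-(1 / 2 : ℝ) * v) + |rel b d X (Real.exp v) - 1| * (Real.exp v * Real.exp (-(1 / 2 : ℝ) * v)) := by ring
      _ = Real.exp (-(1 / 2 : ℝ) * v) + |rel b d X (Real.exp v) - 1| * Real.exp (v / 2) := by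
          rw [← Real.exp_add]
          congr 3
          ring

end

end Pool.Agent.H41.PM
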