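import Pool.Agent.H41.PM.Gen
import Pool.Agent.H41.PM.Dn

/-! # Project PM: the system of the zones (helper33) -/

set_option autoImplicit false

open MeasureTheory Filter Topology Set

namespace Pool.Agent.H41.PM

namespace SysAux

theorem log_cont {a b : ℝ} (ha : 1 < a) (hab : a ≤ b) :
    IntervalIntegrable (fun t : ℝ => 1 / Real.log t) volume a b := by
  apply ContinuousOn.intervalIntegrable
  rw [uIcc_of_le hab]
  intro t ht
  apply ContinuousAt.continuousWithinAt
  apply ContinuousAt.div continuousAt_const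
  · exact Real.continuousAt_log (by linarith [ht.1])
  · exact (Real.log_pos (by linarith [ht.1])).ne'

/-- change of variables `t = e^v` -/
theorem li_f {r : ℝ → ℝ} (hr : Continuous r) {a b : ℝ} (ha : 1 ≤ a) (hab : a ≤ b) :
    ∫ t in Real.exp a..Real.exp b, r t / Real.log t = ∫ v in a..b, r (Real.exp v) * BC.f v := by
  have hpos : ∀ v ∈ uIcc a b, 1 ≤ v := by
    intro v hv
    rw [uIcc_of_le hab] at hv
    linarith [hv.1]
  have e1 : ∫ v in a..b, (fun t => r t / Real.log t) (Real.exp v) * Real.exp v =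
      ∫ t in Real.exp a..Real.exp b, r t / Real.log t := by
    apply intervalIntegral.integral_comp_mul_deriv'' (f := Real.exp) (f' := Real.exp)
      (g := fun t => r t / Real.log t)
    · exact Real.continuous_exp.continuousOn
    · intro v _
      exact (Real.hasDerivAt_exp v).hasDerivWithinAt
    · exact Real.continuous_exp.continuousOn
    · rintro _ ⟨v, hv, rfl⟩
      have hv0 := hpos v hv
      apply ContinuousAt.continuousWithinAt
      apply ContinuousAt.div hr.continuousAt
      · exact Real.continuousAt_log (Real.exp_pos v).ne'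
      · rw [Real.log_exp]
        linarith
  rw [← e1]
  apply intervalIntegral.integral_congr
  intro v hv
  have hv0 := hpos v hv
  simp only
  rw [Real.log_exp, BC.f, max_eq_left hv0]
  ring

theorem exp_lg (W : ℕ → ℝ) (a : ℕ →₀ ℕ) :
    Real.exp (BC.lg W a) = a.prod fun k e => Real.exp (W k) ^ e := by
  rw [BC.lg, Finsupp.sum, Real.exp_sum, Finsupp.prod]
  refine Finset.prod_congr rfl fun k _ => ?_
  rw [← Real.exp_nat_mul]

end SysAux

open SysAux in
theorem zones_system {b d X : ℕ → ℝ} (H : Zones b d X) : ∃ p : ℕ → ℝ, IsSystem p ∧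
    (∀ x, Real.exp 4 ≤ x → |(primeCount p x : ℝ) - ∫ t in Real.exp 4..x, rel b d X t / Real.log t| ≤ 1) ∧
    ∃ c : ℝ, 0 < c ∧ ∀ ε : ℝ, 0 < ε → ∃ A : ℝ, ∀ x : ℝ, 1 ≤ x →
      |(integerCount p x : ℝ) - c * x| ≤ A * x ^ (1 / 2 + ε) := by
  obtain ⟨W, hmono, hgt, htend, hcount, c, hc, hN⟩ := dens_system (zones_dens H)
  refine ⟨fun n => Real.exp (W n), ⟨?_, ?_, ?_⟩, ?_, c, hc, ?_⟩
  · exact Real.one_lt_exp_iff.2 (by linarith [hgt 0])
  · exact Real.exp_strictMono.comp hmono
  · exact Real.tendsto_exp_atTop.comp htend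
  · intro x hx
    have hx0 : 0 < x := (Real.exp_pos 4).trans_le hx
    have hlog : 4 ≤ Real.log x := (Real.le_log_iff_exp_le hx0).2 hx
    have h1 : primeCount (fun n => Real.exp (W n)) x = {n : ℕ | W n ≤ Real.log x}.ncard := by
      rw [primeCount]
      congr 1
      ext n
      exact (Real.le_log_iff_exp_le hx0).symm
    have h2 : ∫ t in Real.exp 4..x, rel b d X t / Real.log t =
        ∫ v in (4 : ℝ)..Real.log x, rel b d X (Real.exp v) * BC.f v := by
      rw [← li_f (rel_cont H) (by norm_num) hlog, Real.exp_log hx0]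
    rw [h1, h2]
    exact hcount _ hlog
  · intro ε hε
    obtain ⟨A, hA⟩ := hN ε hε
    refine ⟨A, fun x hx => ?_⟩
    have h1 : integerCount (fun n => Real.exp (W n)) x = BC.NN W x := by
      rw [integerCount, BC.NN]
      congr 1
      ext a
      simp only [Set.mem_ofPred_eq, exp_lg]
    rw [h1]
    exact hA x hx

end Pool.Agent.H41.PM
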