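import Pool.Agent.H41.BC.AS2

/-! # Project PM: generalised primes with prescribed behaviour in intervals of length `(log x)^a`. Definitions. -/

set_option autoImplicit false

open MeasureTheory Filter Topology Set

namespace Pool.Agent.H41.PM

/-- a system of Beurling generalised primes -/
structure IsSystem (p : ℕ → ℝ) : Prop where
  one_lt : 1 < p 0
  strictMono : StrictMono p
  tendsto : Tendsto p atTop atTop

/-- the number of generalised primes `≤ x` -/
noncomputable def primeCount (p : ℕ → ℝ) (x : ℝ) : ℕ := {n : ℕ | p n ≤ x}.ncard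

/-- the number of generalised integers `≤ x` -/
noncomputable def integerCount (p : ℕ → ℝ) (x : ℝ) : ℕ :=
  {a : ℕ →₀ ℕ | (a.prod fun k e => p k ^ e) ≤ x}.ncard

/-- the ratio of the number of members of `(x, x + (log x)^a]` and its expected value `(log x)^a / log x` -/
noncomputable def R (p : ℕ → ℝ) (a x : ℝ) : ℝ :=
  Real.log x / Real.log x ^ a * ((primeCount p (x + Real.log x ^ a) : ℝ) - primeCount p x)

/-- the lower limit -/
noncomputable def L (p : ℕ → ℝ) (a : ℝ) : ENNReal := liminf (fun x : ℝ => ENNReal.ofReal (R p a x)) atTop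

/-- the upper limit -/
noncomputable def U (p : ℕ → ℝ) (a : ℝ) : ENNReal := limsup (fun x : ℝ => ENNReal.ofReal (R p a x)) atTop

/-- an admissible density on the logarithmic scale -/
structure Dens (D : ℝ → ℝ) (v0 : ℝ) : Prop where
  start : 4 ≤ v0
  cont : Continuous D
  nonneg : ∀ v, v0 ≤ v → 0 ≤ D v
  upper : ∀ v, v0 ≤ v → D v ≤ 2 * Real.exp v
  mass : ∀ v, v0 ≤ v → 1 ≤ ∫ w in v..v + 1, D w
  dev : ∀ σ : ℝ, 1 / 2 < σ → IntegrableOn (fun v => |BC.g v - D v| * Real.exp (-(σ * v))) (Ici v0)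

/-- a zone: height one on `[x, x + H]`, support `(x - 1, x + H + 1)` -/
noncomputable def phi (x H t : ℝ) : ℝ := max 0 (min 1 (min (t - x + 1) (x + H + 1 - t)))

/-- the relative density: `d j` on the zone `[X j, X j + (log (X j))^(b j)]`, and `1` outside the zones -/
noncomputable def rel (b d X : ℕ → ℝ) (t : ℝ) : ℝ :=
  1 + ∑' j, (d j - 1) * phi (X j) (Real.log (X j) ^ b j) t

/-- the zones are short and far apart -/
structure Zones (b d X : ℕ → ℝ) : Prop where
  b_pos : ∀ j, 0 < b j
  d_nonneg : ∀ j, 0 ≤ d j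
  start : Real.exp 8 ≤ X 0
  far : ∀ j, 16 * X j ≤ X (j + 1)
  d_le : ∀ j, d j ≤ Real.log (X j) / 2
  short : ∀ j, (1 + d j) * (Real.log (X j) ^ b j + 2) ≤ X j ^ (1 / ((j : ℝ) + 3))
  small : ∀ i j, i ≤ j → b j < b i →
    (1 + d j) * (Real.log (X j) ^ b j + 2) ≤ Real.log (X j) ^ b i / (j + 1)

end Pool.Agent.H41.PM
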