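import Pool.Agent.H41.PM.Rel

/-! # PM-LOC: windows of length `(log x)^(b i)` -/

set_option autoImplicit false

open MeasureTheory Filter Topology Set

namespace Pool.Agent.H41.PM

namespace Loc

variable {b d X : ℕ → ℝ} {p : ℕ → ℝ}

lemma one_lt_exp4 : (1:ℝ) < Real.exp 4 := by
  have := Real.add_one_le_exp (4:ℝ)
  linarith

lemma int_rel_log (H : Zones b d X) {s t : ℝ} (hs : 1 < s) (hst : s ≤ t) :
    IntervalIntegrable (fun t => rel b d X t / Real.log t) volume s t := by
  apply ContinuousOn.intervalIntegrable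
  rw [uIcc_of_le hst]
  apply ContinuousOn.div (rel_cont H).continuousOn
  · apply Real.continuousOn_log.mono
    intro y hy
    simp only [mem_compl_iff, mem_singleton_iff]
    have := hy.1
    linarith
  · intro y hy
    exact (Real.log_pos (by linarith [hy.1])).ne'

lemma int_rel (H : Zones b d X) {s t : ℝ} :
    IntervalIntegrable (rel b d X) volume s t := (rel_cont H).intervalIntegrable _ _

/-- the number of members of a window -/
lemma window (H : Zones b d X)
    (hp : ∀ x, Real.exp 4 ≤ x → |(primeCount p x : ℝ) - ∫ t in Real.exp 4..x, rel b d X t / Real.log t| ≤ 1)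
    {x h : ℝ} (hx : Real.exp 4 ≤ x) (hh : 0 ≤ h) :
    |((primeCount p (x + h) : ℝ) - primeCount p x) - ∫ t in x..x + h, rel b d X t / Real.log t| ≤ 2 := by
  have h1 := hp x hx
  have h2 := hp (x + h) (by linarith)
  have h3 : (∫ t in Real.exp 4..x, rel b d X t / Real.log t) +
      ∫ t in x..x + h, rel b d X t / Real.log t =
      ∫ t in Real.exp 4..x + h, rel b d X t / Real.log t :=
    intervalIntegral.integral_add_adjacent_intervals (int_rel_log H one_lt_exp4 hx)
      (int_rel_log H (lt_of_lt_of_le one_lt_exp4 hx) (by linarith))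
  rw [← h3] at h2
  rw [abs_le] at h1 h2 ⊢
  constructor <;> linarith [h1.1, h1.2, h2.1, h2.2]

lemma int_bounds (H : Zones b d X) {x h : ℝ} (hx : 1 < x) (hh : 0 ≤ h) :
    (∫ t in x..x + h, rel b d X t) / Real.log (x + h) ≤
      ∫ t in x..x + h, rel b d X t / Real.log t ∧
    ∫ t in x..x + h, rel b d X t / Real.log t ≤ (∫ t in x..x + h, rel b d X t) / Real.log x := by
  have hlx : 0 < Real.log x := Real.log_pos hx
  rw [← intervalIntegral.integral_div, ← intervalIntegral.integral_div]
  constructor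
  · apply intervalIntegral.integral_mono_on (by linarith) ((int_rel H).div_const _)
      (int_rel_log H hx (by linarith))
    intro t ht
    exact div_le_div_of_nonneg_left (rel_nonneg H t) (Real.log_pos (by linarith [ht.1]))
      (Real.log_le_log (by linarith [ht.1]) ht.2)
  · apply intervalIntegral.integral_mono_on (by linarith) (int_rel_log H hx (by linarith))
      ((int_rel H).div_const _)
    intro t ht
    exact div_le_div_of_nonneg_left (rel_nonneg H t) hlx (Real.log_le_log (by linarith) ht.1)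

/-- the ratio and the mean of the relative density -/
lemma R_bounds (H : Zones b d X)
    (hp : ∀ x, Real.exp 4 ≤ x → |(primeCount p x : ℝ) - ∫ t in Real.exp 4..x, rel b d X t / Real.log t| ≤ 1)
    {x a : ℝ} (hx : Real.exp 4 ≤ x) :
    Real.log x / Real.log (x + Real.log x ^ a) *
        ((∫ t in x..x + Real.log x ^ a, rel b d X t) / Real.log x ^ a) -
        2 * (Real.log x / Real.log x ^ a) ≤ R p a x ∧
      R p a x ≤ (∫ t in x..x + Real.log x ^ a, rel b d X t) / Real.log x ^ a +
        2 * (Real.log x / Real.log x ^ a) := by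
  have hx1 : 1 < x := lt_of_lt_of_le one_lt_exp4 hx
  have hlx : 0 < Real.log x := Real.log_pos hx1
  obtain ⟨h, hh⟩ : ∃ h, h = Real.log x ^ a := ⟨_, rfl⟩
  have hh0 : 0 < h := by rw [hh]; positivity
  unfold R
  rw [← hh]
  have h1 := window H hp hx hh0.le
  obtain ⟨h2, h3⟩ := int_bounds H hx1 hh0.le
  rw [abs_le] at h1
  obtain ⟨J, hJ⟩ : ∃ J, J = ∫ t in x..x + h, rel b d X t := ⟨_, rfl⟩
  rw [← hJ] at h2 h3 ⊢
  have hq : 0 < Real.log x / h := by positivity
  constructor
  · have e1 : Real.log x / Real.log (x + h) * (J / h) - 2 * (Real.log x / h) =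
        Real.log x / h * (J / Real.log (x + h) - 2) := by ring
    rw [e1]
    apply mul_le_mul_of_nonneg_left _ hq.le
    linarith [h1.1]
  · have e1 : J / h + 2 * (Real.log x / h) = Real.log x / h * (J / Real.log x + 2) := by
      field_simp
    rw [e1]
    apply mul_le_mul_of_nonneg_left _ hq.le
    linarith [h1.2]

/-- large arguments -/
lemma ev_large {a δ : ℝ} (ha : 1 < a) (hδ : 0 < δ) : ∀ᶠ x : ℝ in atTop,
    Real.exp 4 ≤ x ∧ 1 ≤ Real.log x ∧ Real.log x ^ a ≤ x ∧ Real.log x / Real.log x ^ a ≤ δ ∧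
      1 - δ ≤ Real.log x / Real.log (x + Real.log x ^ a) := by
  have hl := Real.tendsto_log_atTop
  have h1 : Tendsto (fun x : ℝ => Real.log x ^ (-(a - 1))) atTop (𝓝 0) :=
    (tendsto_rpow_neg_atTop (by linarith)).comp hl
  have h2 := (isLittleO_log_rpow_rpow_atTop a (zero_lt_one : (0:ℝ) < 1)).def one_pos
  filter_upwards [eventually_ge_atTop (Real.exp 4), hl.eventually_ge_atTop 1,
    h1.eventually (gt_mem_nhds hδ), h2, hl.eventually_ge_atTop (1 / δ)] with x g1 g2 g3 g4 g5
  have hx1 : 1 < x := lt_of_lt_of_le one_lt_exp4 g1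
  have hlx : 0 < Real.log x := by linarith
  have hpow : 0 < Real.log x ^ a := by positivity
  have g6 : Real.log x ^ a ≤ x := by
    rw [Real.norm_of_nonneg hpow.le, Real.rpow_one, Real.norm_of_nonneg (by linarith),
      one_mul] at g4
    exact g4
  refine ⟨g1, g2, g6, ?_, ?_⟩
  · have e1 : Real.log x / Real.log x ^ a = Real.log x ^ (-(a - 1)) := by
      rw [show -(a - 1) = 1 - a by ring, Real.rpow_sub hlx, Real.rpow_one]
    rw [e1]
    exact g3.le
  · have hl2 : Real.log 2 ≤ 1 := by
      have := Real.log_two_lt_d9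
      linarith
    have e1 : Real.log (x + Real.log x ^ a) ≤ Real.log x + 1 := by
      calc Real.log (x + Real.log x ^ a) ≤ Real.log (2 * x) :=
            Real.log_le_log (by linarith) (by linarith)
        _ = Real.log 2 + Real.log x := Real.log_mul (by norm_num) (by linarith)
        _ ≤ _ := by linarith
    have e2 : 0 < Real.log (x + Real.log x ^ a) := Real.log_pos (by linarith)
    rw [le_div_iff₀ e2]
    rw [div_le_iff₀ hδ] at g5
    have e3 : Real.log x ≤ Real.log (x + Real.log x ^ a) :=
      Real.log_le_log (by linarith) (by linarith)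
    have e4 : 1 ≤ δ * Real.log (x + Real.log x ^ a) := by nlinarith
    nlinarith

lemma X_mono (H : Zones b d X) : StrictMono X := by
  have h0 : ∀ j, 0 < X j := by
    intro j
    induction j with
    | zero => exact lt_of_lt_of_le (Real.exp_pos _) H.start
    | succ j ih => linarith [H.far j]
  exact strictMono_nat_of_lt_succ fun j => by linarith [H.far j, h0 j]

lemma X_ge (H : Zones b d X) (j : ℕ) : Real.exp 8 ≤ X j :=
  H.start.trans ((X_mono H).monotone (Nat.zero_le j))

lemma X_tendsto (H : Zones b d X) : Tendsto X atTop atTop := by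
  have h1 : ∀ j : ℕ, (j : ℝ) ≤ X j := by
    intro j
    induction j with
    | zero =>
      have := X_ge H 0
      have := Real.exp_pos 8
      simp only [Nat.cast_zero]
      linarith
    | succ j ih =>
      have h2 := H.far j
      have h3 := X_ge H j
      have h4 := Real.add_one_le_exp (8:ℝ)
      push_cast
      linarith
  exact tendsto_atTop_mono h1 tendsto_natCast_atTop_atTop

/-- the mean of the relative density over a window of length `(log x)^(b i)` -/
lemma mean (H : Zones b d X) {i : ℕ} (hi : 1 < b i) {δ : ℝ} (hδ : 0 < δ) :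
    ∀ᶠ x : ℝ in atTop, ∃ c m : ℝ, 0 ≤ m ∧ m ≤ 1 ∧
      (∫ t in x..x + Real.log x ^ b i, rel b d X t) / Real.log x ^ b i = 1 + (c - 1) * m ∧
      ((∃ j, b i ≤ b j ∧ c = d j) ∨ (1 + |c|) * m ≤ δ) := by
  obtain ⟨J0, hJ0⟩ : ∃ J0 : ℕ, 2 ^ b i / δ ≤ (J0 : ℝ) := exists_nat_ge _
  filter_upwards [ev_large hi (zero_lt_one : (0:ℝ) < 1), eventually_gt_atTop (2 * X (max J0 i))]
    with x g1 g2
  obtain ⟨h1, h2, h3, -, -⟩ := g1
  have hx1 : 1 < x := lt_of_lt_of_le one_lt_exp4 h1
  have hlx : 0 < Real.log x := by linarith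
  obtain ⟨h, hh⟩ : ∃ h, h = Real.log x ^ b i := ⟨_, rfl⟩
  have hh0 : 0 < h := by rw [hh]; positivity
  rw [← hh] at h3 ⊢
  rcases rel_alt H (x := x) (by linarith) with hr | ⟨j, hj1, hj2⟩
  · refine ⟨0, 0, le_rfl, zero_le_one, ?_, Or.inr (by simpa using hδ.le)⟩
    have e1 : ∫ t in x..x + h, rel b d X t = ∫ t in x..x + h, (1:ℝ) := by
      apply intervalIntegral.integral_congr
      intro t ht
      rw [uIcc_of_le (by linarith)] at ht
      exact hr t ⟨ht.1, by linarith [ht.2]⟩
    rw [e1]
    simp [hh0.ne']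
  · have hjJ : max J0 i ≤ j := by
      by_contra hcon
      have := (X_mono H).monotone (le_of_lt (not_le.mp hcon))
      linarith
    obtain ⟨M, hM⟩ : ∃ M, M = ∫ t in x..x + h, phi (X j) (Real.log (X j) ^ b j) t := ⟨_, rfl⟩
    have hXj := X_ge H j
    have hlX : 8 ≤ Real.log (X j) := by
      have := Real.log_le_log (Real.exp_pos 8) hXj
      rwa [Real.log_exp] at this
    have hHj : 0 ≤ Real.log (X j) ^ b j := by positivity
    have hM0 := phi_int hHj (s := x) (t := x + h) (by linarith) (x := X j)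
    rw [← hM] at hM0
    have hMh : M ≤ h := by
      rw [hM]
      calc ∫ t in x..x + h, phi (X j) (Real.log (X j) ^ b j) t ≤ ∫ t in x..x + h, (1:ℝ) := by
            apply intervalIntegral.integral_mono_on (by linarith)
              ((phi_cont _ _).intervalIntegrable _ _) (continuous_const.intervalIntegrable _ _)
            intro t _
            exact phi_le_one _ _ _
        _ = h := by simp
    have hint : ∫ t in x..x + h, rel b d X t = h + (d j - 1) * M := by
      have e1 : ∫ t in x..x + h, rel b d X t =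
          ∫ t in x..x + h, (1 + (d j - 1) * phi (X j) (Real.log (X j) ^ b j) t) := by
        apply intervalIntegral.integral_congr
        intro t ht
        rw [uIcc_of_le (by linarith)] at ht
        exact rel_near H (by linarith [ht.1]) (by linarith [ht.2])
      rw [e1, intervalIntegral.integral_add (continuous_const.intervalIntegrable _ _)
        (((phi_cont _ _).intervalIntegrable _ _).const_mul _),
        intervalIntegral.integral_const_mul, ← hM]
      simp
    refine ⟨d j, M / h, by have := hM0.1; positivity, ?_, ?_, ?_⟩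
    · rw [div_le_one hh0]
      exact hMh
    · rw [hint]
      field_simp
    · rcases le_or_gt (b i) (b j) with hb | hb
      · exact Or.inl ⟨j, hb, rfl⟩
      · right
        have hdj := H.d_nonneg j
        rw [abs_of_nonneg hdj]
        have hsm := H.small i j (le_trans (le_max_right _ _) hjJ) hb
        have hlog : Real.log (X j) ≤ 2 * Real.log x := by
          have e1 : Real.log (X j / 4) ≤ Real.log x := Real.log_le_log (by
            have := Real.exp_pos 8
            linarith) hj1
          rw [Real.log_div (by have := Real.exp_pos 8; linarith) (by norm_num)] at e1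
          have e2 : Real.log 4 ≤ 2 := by
            rw [show (4:ℝ) = 2 ^ 2 by norm_num, Real.log_pow]
            have := Real.log_two_lt_d9
            push_cast
            linarith
          linarith
        have hpow : Real.log (X j) ^ b i ≤ 2 ^ b i * h := by
          rw [hh, ← Real.mul_rpow (by norm_num) hlx.le]
          exact Real.rpow_le_rpow (by linarith) hlog (by linarith)
        have hj0 : (0:ℝ) < (j : ℝ) + 1 := by positivity
        have e3 : (1 + d j) * M ≤ 2 ^ b i * h / (j + 1) := by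
          calc (1 + d j) * M ≤ (1 + d j) * (Real.log (X j) ^ b j + 2) :=
                mul_le_mul_of_nonneg_left hM0.2 (by linarith)
            _ ≤ Real.log (X j) ^ b i / (j + 1) := hsm
            _ ≤ 2 ^ b i * h / (j + 1) := div_le_div_of_nonneg_right hpow hj0.le
        have e4 : (J0 : ℝ) ≤ j := by exact_mod_cast le_trans (le_max_left _ _) hjJ
        have e5 : (2:ℝ) ^ b i ≤ δ * (j + 1) := by
          rw [div_le_iff₀ hδ] at hJ0
          nlinarith
        have e6 : (1 + d j) * (M / h) = (1 + d j) * M / h := by ring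
        rw [e6, div_le_iff₀ hh0]
        refine e3.trans ?_
        rw [div_le_iff₀ hj0]
        nlinarith

end Loc

theorem loc_low {b d X : ℕ → ℝ} (H : Zones b d X) {p : ℕ → ℝ} (_hs : IsSystem p)
    (hp : ∀ x, Real.exp 4 ≤ x → |(primeCount p x : ℝ) - ∫ t in Real.exp 4..x, rel b d X t / Real.log t| ≤ 1)
    {i : ℕ} (hi : 1 < b i) {c : ℝ} (hc : ∀ j, b i ≤ b j → c ≤ d j) (hc1 : c ≤ 1) {ε : ℝ} (hε : 0 < ε) :
    ∀ᶠ x in atTop, c - ε ≤ R p (b i) x := by
  obtain ⟨δ, hδ⟩ : ∃ δ, δ = ε / (4 * (1 + |c| + ε)) := ⟨_, rfl⟩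
  have hab := abs_nonneg c
  have hδ0 : 0 < δ := by rw [hδ]; positivity
  have hδ1 : δ * (|c| + ε / 4) ≤ ε / 4 := by
    rw [hδ, div_mul_eq_mul_div, div_le_iff₀ (by positivity)]
    nlinarith
  have hδ2 : 2 * δ ≤ ε / 2 := by
    rw [hδ, ← mul_div_assoc, div_le_iff₀ (by positivity)]
    nlinarith
  filter_upwards [Loc.ev_large hi hδ0, Loc.mean H hi (δ := ε / 4) (by positivity)] with x g1 g2
  obtain ⟨h1, h2, h3, h4, h5⟩ := g1
  obtain ⟨c', m, m0, m1, hJ, hc'⟩ := g2
  have hR := (Loc.R_bounds H hp (a := b i) h1).1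
  rw [hJ] at hR
  have hmean : c - ε / 4 ≤ 1 + (c' - 1) * m := by
    rcases hc' with ⟨j, hj, rfl⟩ | hc'
    · have := hc j hj
      nlinarith
    · have h6 := neg_abs_le c'
      have h7 : (c' - 1) * m ≥ -((1 + |c'|) * m) := by nlinarith
      linarith
  have hq1 : 0 < Real.log x / Real.log (x + Real.log x ^ b i) := by
    have hx1 : 1 < x := lt_of_lt_of_le Loc.one_lt_exp4 h1
    have : 0 < Real.log x ^ b i := by positivity
    have : 0 < Real.log (x + Real.log x ^ b i) := Real.log_pos (by linarith)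
    positivity
  have hq2 : Real.log x / Real.log (x + Real.log x ^ b i) ≤ 1 := by
    have hx1 : 1 < x := lt_of_lt_of_le Loc.one_lt_exp4 h1
    have : 0 < Real.log x ^ b i := by positivity
    have : 0 < Real.log (x + Real.log x ^ b i) := Real.log_pos (by linarith)
    rw [div_le_one this]
    exact Real.log_le_log (by linarith) (by linarith)
  obtain ⟨q, hq⟩ : ∃ q, q = Real.log x / Real.log (x + Real.log x ^ b i) := ⟨_, rfl⟩
  rw [← hq] at hR hq1 hq2 h5
  have h8 : q * (c - ε / 4) ≤ q * (1 + (c' - 1) * m) := mul_le_mul_of_nonneg_left hmean hq1.le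
  have h9 : (1 - q) * (c - ε / 4) ≤ ε / 4 := by
    have h10 : c - ε / 4 ≤ |c| + ε / 4 := by linarith [le_abs_self c]
    have h11 : (1 - q) * (c - ε / 4) ≤ (1 - q) * (|c| + ε / 4) :=
      mul_le_mul_of_nonneg_left h10 (by linarith)
    have h12 : (1 - q) * (|c| + ε / 4) ≤ δ * (|c| + ε / 4) :=
      mul_le_mul_of_nonneg_right (by linarith) (by positivity)
    linarith
  nlinarith

theorem loc_up {b d X : ℕ → ℝ} (H : Zones b d X) {p : ℕ → ℝ} (_hs : IsSystem p)
    (hp : ∀ x, Real.exp 4 ≤ x → |(primeCount p x : ℝ) - ∫ t in Real.exp 4..x, rel b d X t / Real.log t| ≤ 1)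
    {i : ℕ} (hi : 1 < b i) {c : ℝ} (hc : ∀ j, b i ≤ b j → d j ≤ c) (hc1 : 1 ≤ c) {ε : ℝ} (hε : 0 < ε) :
    ∀ᶠ x in atTop, R p (b i) x ≤ c + ε := by
  filter_upwards [Loc.ev_large hi (δ := ε / 4) (by positivity),
    Loc.mean H hi (δ := ε / 4) (by positivity)] with x g1 g2
  obtain ⟨h1, h2, h3, h4, h5⟩ := g1
  obtain ⟨c', m, m0, m1, hJ, hc'⟩ := g2
  have hR := (Loc.R_bounds H hp (a := b i) h1).2
  rw [hJ] at hR
  have hmean : 1 + (c' - 1) * m ≤ c + ε / 4 := by
    rcases hc' with ⟨j, hj, rfl⟩ | hc'
    · have := hc j hj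
      nlinarith
    · have h6 := le_abs_self c'
      have h7 : (c' - 1) * m ≤ (1 + |c'|) * m := by nlinarith
      linarith
  linarith

/-- the window which begins at `X j` -/
theorem loc_at {b d X : ℕ → ℝ} (H : Zones b d X) {p : ℕ → ℝ} (_hs : IsSystem p)
    (hp : ∀ x, Real.exp 4 ≤ x → |(primeCount p x : ℝ) - ∫ t in Real.exp 4..x, rel b d X t / Real.log t| ≤ 1)
    {i : ℕ} (hi : 1 < b i) {ε : ℝ} (hε : 0 < ε) :
    ∀ᶠ j : ℕ in atTop, b j = b i → |R p (b i) (X j) - d j| ≤ ε * (1 + d j) := by
  filter_upwards [(Loc.X_tendsto H).eventually (Loc.ev_large hi (δ := ε / 2) (by positivity))]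
    with j g1 hbj
  obtain ⟨h1, h2, h3, h4, h5⟩ := g1
  have hR := Loc.R_bounds H hp (a := b i) h1
  have hX0 : 0 < X j := lt_of_lt_of_le (Real.exp_pos _) h1
  obtain ⟨h, hh⟩ : ∃ h, h = Real.log (X j) ^ b i := ⟨_, rfl⟩
  have hh0 : 0 < h := by rw [hh]; positivity
  have hint : (∫ t in X j..X j + Real.log (X j) ^ b i, rel b d X t) / Real.log (X j) ^ b i =
      d j := by
    rw [← hh]
    have e1 : ∫ t in X j..X j + h, rel b d X t = ∫ t in X j..X j + h, d j := by
      apply intervalIntegral.integral_congr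
      intro t ht
      rw [uIcc_of_le (by linarith)] at ht
      rw [← hh] at h3
      show rel b d X t = d j
      rw [rel_near H (j := j) (by linarith [ht.1]) (by linarith [ht.2]),
        phi_eq_one ht.1 (by rw [hbj, ← hh]; exact ht.2)]
      ring
    rw [e1]
    simp
    field_simp
  rw [hint] at hR
  have hd := H.d_nonneg j
  rw [abs_le]
  constructor
  · have h6 := hR.1
    have h7 : (1 - ε / 2) * d j ≤ Real.log (X j) / Real.log (X j + Real.log (X j) ^ b i) * d j :=
      mul_le_mul_of_nonneg_right h5 hd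
    nlinarith
  · have h6 := hR.2
    nlinarith

end Pool.Agent.H41.PM
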