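import Pool.Agent.H41.PM.Defs

/-! # PM-MON: monotonicity in the exponent -/

set_option autoImplicit false

open MeasureTheory Filter Topology Set

namespace Pool.Agent.H41.PM

namespace Mon

variable {p : ℕ → ℝ}

lemma fin (hp : IsSystem p) (x : ℝ) : {n : ℕ | p n ≤ x}.Finite := by
  have h := hp.tendsto.eventually_gt_atTop x
  rw [eventually_atTop] at h
  obtain ⟨N, hN⟩ := h
  apply (Set.finite_lt_nat N).subset
  intro n hn
  by_contra hcon
  have h1 := hN n (not_lt.mp hcon)
  exact absurd hn (not_le.mpr h1)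

lemma count_mono (hp : IsSystem p) {x y : ℝ} (h : x ≤ y) :
    (primeCount p x : ℝ) ≤ primeCount p y := by
  have : primeCount p x ≤ primeCount p y :=
    Set.ncard_le_ncard (fun n (hn : p n ≤ x) => le_trans hn h) (fin hp y)
  exact_mod_cast this

/-- lower bound for long intervals -/
lemma low (hp : IsSystem p) {a c x0 : ℝ} (ha : 1 < a) (hc : 0 ≤ c) (hx0 : 1 < x0)
    (h : ∀ x, x0 ≤ x → c * Real.log x ^ (a - 1) ≤
      (primeCount p (x + Real.log x ^ a) : ℝ) - primeCount p x)
    {x T : ℝ} (hx : x0 ≤ x) (hT : 0 ≤ T) :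
    c * Real.log x ^ (a - 1) * (T / Real.log (x + T) ^ a - 1) ≤
      (primeCount p (x + T) : ℝ) - primeCount p x := by
  have hx1 : 1 < x := by linarith
  have hlx : 0 < Real.log x := Real.log_pos hx1
  have hlT : 0 < Real.log (x + T) := Real.log_pos (by linarith)
  obtain ⟨H, hH⟩ : ∃ H, H = Real.log (x + T) ^ a := ⟨_, rfl⟩
  have hH0 : 0 < H := by rw [hH]; positivity
  rw [← hH]
  have key : ∀ k : ℕ, (k : ℝ) * H ≤ T → c * Real.log x ^ (a - 1) * k ≤
      (primeCount p (x + k * H) : ℝ) - primeCount p x := by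
    intro k
    induction k with
    | zero => intro _; simp
    | succ k ih =>
      intro hk
      push_cast at hk ⊢
      have hk' : (k : ℝ) * H + H ≤ T := by linarith
      have h1 := ih (by linarith)
      have hkH : 0 ≤ (k : ℝ) * H := by positivity
      have h2 := h (x + k * H) (by linarith)
      have h3 : Real.log x ^ (a - 1) ≤ Real.log (x + k * H) ^ (a - 1) :=
        Real.rpow_le_rpow hlx.le (Real.log_le_log (by linarith) (by linarith)) (by linarith)
      have h4 : Real.log (x + k * H) ^ a ≤ H := by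
        rw [hH]
        rw [hH] at hk' hkH
        exact Real.rpow_le_rpow (Real.log_nonneg (by linarith))
          (Real.log_le_log (by linarith) (by
            have : 0 < Real.log (x + T) ^ a := by positivity
            linarith)) (by linarith)
      have h5 := count_mono hp (x := x + k * H + Real.log (x + k * H) ^ a)
        (y := x + (k + 1) * H) (by linarith)
      have h6 : c * Real.log x ^ (a - 1) ≤ c * Real.log (x + k * H) ^ (a - 1) :=
        mul_le_mul_of_nonneg_left h3 hc
      linarith
  obtain ⟨N, hN⟩ : ∃ N : ℕ, N = ⌊T / H⌋₊ := ⟨_, rfl⟩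
  have hN1 : (N : ℝ) ≤ T / H := by rw [hN]; exact Nat.floor_le (by positivity)
  have hN2 : T / H < N + 1 := by rw [hN]; exact Nat.lt_floor_add_one _
  have hN3 : (N : ℝ) * H ≤ T := by rwa [le_div_iff₀ hH0] at hN1
  have h1 := key N hN3
  have h2 := count_mono hp (x := x + N * H) (y := x + T) (by linarith)
  have h3 : 0 ≤ c * Real.log x ^ (a - 1) := by positivity
  have h4 : c * Real.log x ^ (a - 1) * (T / H - 1) ≤ c * Real.log x ^ (a - 1) * N :=
    mul_le_mul_of_nonneg_left (by linarith) h3
  linarith

/-- upper bound for long intervals -/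
lemma upp (hp : IsSystem p) {a c x0 : ℝ} (ha : 1 < a) (hc : 0 ≤ c) (hx0 : 1 < x0)
    (h : ∀ x, x0 ≤ x → (primeCount p (x + Real.log x ^ a) : ℝ) - primeCount p x ≤
      c * Real.log x ^ (a - 1))
    {x T : ℝ} (hx : x0 ≤ x) (hT : 0 ≤ T) :
    (primeCount p (x + T) : ℝ) - primeCount p x ≤
      c * Real.log (x + T) ^ (a - 1) * (T / Real.log x ^ a + 1) := by
  have hx1 : 1 < x := by linarith
  have hlx : 0 < Real.log x := Real.log_pos hx1
  have hlT : 0 < Real.log (x + T) := Real.log_pos (by linarith)
  obtain ⟨H, hH⟩ : ∃ H, H = Real.log x ^ a := ⟨_, rfl⟩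
  have hH0 : 0 < H := by rw [hH]; positivity
  rw [← hH]
  have h0 : 0 ≤ c * Real.log (x + T) ^ (a - 1) := by positivity
  have key : ∀ k : ℕ, (primeCount p (min (x + k * H) (x + T)) : ℝ) - primeCount p x ≤
      c * Real.log (x + T) ^ (a - 1) * k := by
    intro k
    induction k with
    | zero => simp [hT]
    | succ k ih =>
      push_cast
      rcases le_or_gt T ((k : ℝ) * H) with hk | hk
      · rw [min_eq_right (by linarith)] at ih
        rw [min_eq_right (by nlinarith)]
        linarith
      · rw [min_eq_left (by linarith)] at ih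
        have hkH : 0 ≤ (k : ℝ) * H := by positivity
        have h2 := h (x + k * H) (by linarith)
        have h3 : Real.log (x + k * H) ^ (a - 1) ≤ Real.log (x + T) ^ (a - 1) :=
          Real.rpow_le_rpow (Real.log_nonneg (by linarith))
            (Real.log_le_log (by linarith) (by linarith)) (by linarith)
        have h4 : H ≤ Real.log (x + k * H) ^ a := by
          rw [hH] at hkH ⊢
          exact Real.rpow_le_rpow hlx.le (Real.log_le_log (by linarith) (by linarith))
            (by linarith)
        have h5 := count_mono hp (x := min (x + (k + 1) * H) (x + T))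
          (y := x + k * H + Real.log (x + k * H) ^ a)
          (le_trans (min_le_left _ _) (by linarith))
        have h6 : c * Real.log (x + k * H) ^ (a - 1) ≤ c * Real.log (x + T) ^ (a - 1) :=
          mul_le_mul_of_nonneg_left h3 hc
        linarith
  obtain ⟨N, hN⟩ : ∃ N : ℕ, N = ⌈T / H⌉₊ := ⟨_, rfl⟩
  have hN1 : T / H ≤ N := by rw [hN]; exact Nat.le_ceil _
  have hN2 : (N : ℝ) < T / H + 1 := by rw [hN]; exact Nat.ceil_lt_add_one (by positivity)
  have hN3 : T ≤ (N : ℝ) * H := by rwa [div_le_iff₀ hH0] at hN1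
  have h1 := key N
  rw [min_eq_right (by linarith)] at h1
  have h4 : c * Real.log (x + T) ^ (a - 1) * N ≤ c * Real.log (x + T) ^ (a - 1) * (T / H + 1) :=
    mul_le_mul_of_nonneg_left hN2.le h0
  linarith

/-! ### limits -/

lemma ratio_lim {T : ℝ → ℝ} (hT : ∀ᶠ x in atTop, 0 ≤ T x ∧ T x ≤ x) :
    Tendsto (fun x => Real.log x / Real.log (x + T x)) atTop (𝓝 1) := by
  have hl := Real.tendsto_log_atTop
  have h1 : Tendsto (fun x : ℝ => 1 - 1 / Real.log x) atTop (𝓝 1) := by
    have := (tendsto_const_nhds (x := (1:ℝ))).sub ((tendsto_const_nhds (x := (1:ℝ))).div_atTop hl)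
    simpa using this
  refine tendsto_of_tendsto_of_tendsto_of_le_of_le' h1 tendsto_const_nhds ?_ ?_
  · filter_upwards [hT, hl.eventually_ge_atTop 1, eventually_gt_atTop 1] with x g1 g2 g3
    have hl2 : Real.log 2 ≤ 1 := by
      have := Real.log_two_lt_d9
      linarith
    have e1 : Real.log (x + T x) ≤ Real.log x + 1 := by
      calc Real.log (x + T x) ≤ Real.log (2 * x) :=
            Real.log_le_log (by linarith [g1.1]) (by linarith [g1.2])
        _ = Real.log 2 + Real.log x := Real.log_mul (by norm_num) (by linarith)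
        _ ≤ _ := by linarith
    have e2 : Real.log x ≤ Real.log (x + T x) :=
      Real.log_le_log (by linarith) (by linarith [g1.1])
    rw [le_div_iff₀ (by linarith)]
    have e3 : 0 < Real.log x := by linarith
    have e4 : 1 ≤ 1 / Real.log x * Real.log (x + T x) := by
      rw [div_mul_eq_mul_div, one_mul, le_div_iff₀ e3]
      linarith
    nlinarith
  · filter_upwards [hT, eventually_gt_atTop 1] with x g1 g3
    have e3 : 0 < Real.log x := Real.log_pos g3
    have e2 : Real.log x ≤ Real.log (x + T x) :=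
      Real.log_le_log (by linarith) (by linarith [g1.1])
    rw [div_le_one (by linarith)]
    exact e2

lemma pow_le {b : ℝ} : ∀ᶠ x : ℝ in atTop, 0 ≤ Real.log x ^ b ∧ Real.log x ^ b ≤ x := by
  have h2 := (isLittleO_log_rpow_rpow_atTop b (zero_lt_one : (0:ℝ) < 1)).def one_pos
  filter_upwards [eventually_gt_atTop 1, h2] with x g1 g4
  have hlx : 0 < Real.log x := Real.log_pos g1
  have hpow : 0 < Real.log x ^ b := by positivity
  refine ⟨hpow.le, ?_⟩
  rw [Real.norm_of_nonneg hpow.le, Real.rpow_one, Real.norm_of_nonneg (by linarith),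
    one_mul] at g4
  exact g4

lemma pow_lim {c : ℝ} (hc : c < 0) : Tendsto (fun x : ℝ => Real.log x ^ c) atTop (𝓝 0) := by
  have h1 := (tendsto_rpow_neg_atTop (show 0 < -c by linarith)).comp Real.tendsto_log_atTop
  simpa [Function.comp_def] using h1

lemma pow_div_lim (c : ℝ) : Tendsto (fun x : ℝ => Real.log x ^ c / x) atTop (𝓝 0) := by
  have h2 := (isLittleO_log_rpow_rpow_atTop c (zero_lt_one : (0:ℝ) < 1)).tendsto_div_nhds_zero
  simpa using h2

/-- the ratio and the number of members -/
lemma R_lower {a c x : ℝ} (hx : 1 < x) (h : c < R p a x) :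
    c * Real.log x ^ (a - 1) ≤ (primeCount p (x + Real.log x ^ a) : ℝ) - primeCount p x := by
  have hlx : 0 < Real.log x := Real.log_pos hx
  unfold R at h
  rw [Real.rpow_sub_one hlx.ne']
  have h0 : 0 < Real.log x ^ a := by positivity
  have h1 : c * (Real.log x ^ a / Real.log x) ≤ Real.log x / Real.log x ^ a *
      ((primeCount p (x + Real.log x ^ a) : ℝ) - primeCount p x) *
        (Real.log x ^ a / Real.log x) :=
    mul_le_mul_of_nonneg_right h.le (by positivity)
  refine h1.trans (le_of_eq ?_)
  field_simp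

lemma R_upper {a c x : ℝ} (hx : 1 < x) (h : R p a x < c) :
    (primeCount p (x + Real.log x ^ a) : ℝ) - primeCount p x ≤ c * Real.log x ^ (a - 1) := by
  have hlx : 0 < Real.log x := Real.log_pos hx
  unfold R at h
  rw [Real.rpow_sub_one hlx.ne']
  have h0 : 0 < Real.log x ^ a := by positivity
  have h1 : Real.log x / Real.log x ^ a *
      ((primeCount p (x + Real.log x ^ a) : ℝ) - primeCount p x) *
        (Real.log x ^ a / Real.log x) ≤ c * (Real.log x ^ a / Real.log x) :=
    mul_le_mul_of_nonneg_right h.le (by positivity)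
  refine le_trans (le_of_eq ?_) h1
  field_simp

lemma ev_lower {a : ℝ} {s : NNReal} (h : (s : ENNReal) < L p a) :
    ∃ x0 : ℝ, 1 < x0 ∧ ∀ x, x0 ≤ x → (s : ℝ) * Real.log x ^ (a - 1) ≤
      (primeCount p (x + Real.log x ^ a) : ℝ) - primeCount p x := by
  have h1 := eventually_lt_of_lt_liminf h
  rw [eventually_atTop] at h1
  obtain ⟨y, hy⟩ := h1
  refine ⟨max y 2, lt_of_lt_of_le (by norm_num) (le_max_right _ _), fun x hx => ?_⟩
  have h2 := hy x (le_trans (le_max_left _ _) hx)
  have hx1 : 1 < x := lt_of_lt_of_le (by norm_num) (le_trans (le_max_right _ _) hx)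
  apply R_lower hx1
  rw [← ENNReal.ofReal_coe_nnreal] at h2
  exact (ENNReal.ofReal_lt_ofReal_iff_of_nonneg s.2).mp h2

lemma ev_upper {a : ℝ} {s : NNReal} (h : U p a < (s : ENNReal)) :
    ∃ x0 : ℝ, 1 < x0 ∧ ∀ x, x0 ≤ x → (primeCount p (x + Real.log x ^ a) : ℝ) - primeCount p x ≤
      (s : ℝ) * Real.log x ^ (a - 1) := by
  have h1 := eventually_lt_of_limsup_lt h
  rw [eventually_atTop] at h1
  obtain ⟨y, hy⟩ := h1
  refine ⟨max y 2, lt_of_lt_of_le (by norm_num) (le_max_right _ _), fun x hx => ?_⟩
  have h2 := hy x (le_trans (le_max_left _ _) hx)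
  have hx1 : 1 < x := lt_of_lt_of_le (by norm_num) (le_trans (le_max_right _ _) hx)
  apply R_upper hx1
  have h0 : (0:ℝ) < s := by
    have : (0 : ENNReal) < s := lt_of_le_of_lt bot_le h2
    exact_mod_cast this
  rw [← ENNReal.ofReal_coe_nnreal, ENNReal.ofReal_lt_ofReal_iff h0] at h2
  exact h2

/-- the number of members of `(x, 2 x]` -/
lemma dyadic (hpnt : Tendsto (fun x => (primeCount p x : ℝ) * Real.log x / x) atTop (𝓝 1)) :
    Tendsto (fun x : ℝ => Real.log x / x * ((primeCount p (x + x) : ℝ) - primeCount p x)) atTop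
      (𝓝 1) := by
  have h1 : Tendsto (fun x : ℝ => x + x) atTop atTop := tendsto_id.atTop_add_atTop tendsto_id
  have h2 := hpnt.comp h1
  have h3 : Tendsto (fun x : ℝ => Real.log x / Real.log (x + x)) atTop (𝓝 1) :=
    ratio_lim (T := fun x => x) (by
      filter_upwards [eventually_ge_atTop 0] with x hx
      exact ⟨hx, le_rfl⟩)
  have h4 := ((h2.mul h3).const_mul 2).sub hpnt
  norm_num at h4
  refine h4.congr' ?_
  filter_upwards [eventually_gt_atTop 1] with x hx
  have e1 : Real.log (x + x) ≠ 0 := (Real.log_pos (by linarith)).ne'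
  obtain ⟨Lg, hLg⟩ : ∃ Lg, Lg = Real.log (x + x) := ⟨_, rfl⟩
  obtain ⟨P2, hP2⟩ : ∃ P2 : ℝ, P2 = primeCount p (x + x) := ⟨_, rfl⟩
  rw [← hLg] at e1 ⊢
  rw [← hP2]
  field_simp
  ring

end Mon

open Mon

theorem L_mono {p : ℕ → ℝ} (hp : IsSystem p) {a b : ℝ} (ha : 1 < a) (hab : a < b) : L p a ≤ L p b := by
  apply ENNReal.le_of_forall_nnreal_lt
  intro r hr
  obtain ⟨s', h1, h2⟩ := exists_between hr
  lift s' to NNReal using (ne_top_of_lt h2) with s
  have hrs : (r : ℝ) < s := by exact_mod_cast h1
  obtain ⟨x0, hx0, h⟩ := ev_lower h2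
  have hlim : Tendsto (fun x : ℝ => (s : ℝ) *
      ((Real.log x / Real.log (x + Real.log x ^ b)) ^ a - Real.log x ^ (a - b))) atTop (𝓝 s) := by
    have e1 := (ratio_lim (T := fun x => Real.log x ^ b) pow_le).rpow_const (p := a)
      (Or.inl one_ne_zero)
    have e2 := (e1.sub (pow_lim (show a - b < 0 by linarith))).const_mul (s : ℝ)
    simpa using e2
  unfold L
  refine le_liminf_of_le (by isBoundedDefault) ?_
  filter_upwards [hlim.eventually_const_lt hrs, eventually_ge_atTop x0, pow_le (b := b)]
    with x g1 g2 g3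
  have hx1 : 1 < x := by linarith
  have hlx : 0 < Real.log x := Real.log_pos hx1
  have h3 := low hp ha s.2 hx0 h g2 g3.1
  rw [← ENNReal.ofReal_coe_nnreal]
  apply ENNReal.ofReal_le_ofReal
  refine g1.le.trans ?_
  unfold R
  have hLx : 0 < Real.log (x + Real.log x ^ b) := Real.log_pos (by linarith [g3.1])
  have h4 : Real.log x / Real.log x ^ b * ((s : ℝ) * Real.log x ^ (a - 1) *
      (Real.log x ^ b / Real.log (x + Real.log x ^ b) ^ a - 1)) ≤
      Real.log x / Real.log x ^ b *
        ((primeCount p (x + Real.log x ^ b) : ℝ) - primeCount p x) :=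
    mul_le_mul_of_nonneg_left h3 (by positivity)
  refine le_trans (le_of_eq ?_) h4
  rw [Real.div_rpow hlx.le hLx.le, Real.rpow_sub hlx, Real.rpow_sub_one hlx.ne']
  have e1 : 0 < Real.log x ^ b := by positivity
  have e2 : 0 < Real.log x ^ a := by positivity
  have e3 : 0 < Real.log (x + Real.log x ^ b) ^ a := by positivity
  field_simp

theorem U_anti {p : ℕ → ℝ} (hp : IsSystem p) {a b : ℝ} (ha : 1 < a) (hab : a < b) : U p b ≤ U p a := by
  apply le_of_forall_gt_imp_ge_of_dense
  intro c hc
  obtain ⟨s', h1, h2⟩ := exists_between hc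
  rcases eq_or_ne c ⊤ with rfl | hct
  · exact le_top
  lift c to NNReal using hct with r
  lift s' to NNReal using (ne_top_of_lt h2) with s
  have hrs : (s : ℝ) < r := by exact_mod_cast h2
  obtain ⟨x0, hx0, h⟩ := ev_upper h1
  have hlim : Tendsto (fun x : ℝ => (s : ℝ) *
      (((Real.log x / Real.log (x + Real.log x ^ b))⁻¹) ^ (a - 1) *
        (1 + Real.log x ^ (a - b)))) atTop (𝓝 s) := by
    have e1 := ((ratio_lim (T := fun x => Real.log x ^ b) pow_le).inv₀ one_ne_zero).rpow_const
      (p := a - 1) (Or.inl (by norm_num))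
    have e2 := (e1.mul ((tendsto_const_nhds (x := (1:ℝ))).add
      (pow_lim (show a - b < 0 by linarith)))).const_mul (s : ℝ)
    simpa using e2
  unfold U
  refine limsup_le_of_le (by isBoundedDefault) ?_
  filter_upwards [hlim.eventually_lt_const hrs, eventually_ge_atTop x0, pow_le (b := b)]
    with x g1 g2 g3
  have hx1 : 1 < x := by linarith
  have hlx : 0 < Real.log x := Real.log_pos hx1
  have h3 := upp hp ha s.2 hx0 h g2 g3.1
  rw [← ENNReal.ofReal_coe_nnreal]
  apply ENNReal.ofReal_le_ofReal
  refine le_trans ?_ g1.le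
  unfold R
  have hLx : 0 < Real.log (x + Real.log x ^ b) := Real.log_pos (by linarith [g3.1])
  have h4 : Real.log x / Real.log x ^ b *
        ((primeCount p (x + Real.log x ^ b) : ℝ) - primeCount p x) ≤
      Real.log x / Real.log x ^ b * ((s : ℝ) * Real.log (x + Real.log x ^ b) ^ (a - 1) *
      (Real.log x ^ b / Real.log x ^ a + 1)) :=
    mul_le_mul_of_nonneg_left h3 (by positivity)
  refine le_trans h4 (le_of_eq ?_)
  rw [inv_div, Real.div_rpow hLx.le hlx.le, Real.rpow_sub hlx a b, Real.rpow_sub_one hlx.ne']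
  have e1 : 0 < Real.log x ^ b := by positivity
  have e2 : 0 < Real.log x ^ a := by positivity
  have e3 : 0 < Real.log (x + Real.log x ^ b) ^ (a - 1) := by positivity
  field_simp

theorem L_le_one {p : ℕ → ℝ} (hp : IsSystem p)
    (hpnt : Tendsto (fun x => (primeCount p x : ℝ) * Real.log x / x) atTop (𝓝 1)) {a : ℝ} (ha : 1 < a) : L p a ≤ 1 := by
  apply ENNReal.le_of_forall_nnreal_lt
  intro s h2
  obtain ⟨x0, hx0, h⟩ := ev_lower h2
  have hr := ratio_lim (T := fun x => x) (by
      filter_upwards [eventually_ge_atTop 0] with x hx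
      exact ⟨hx, le_rfl⟩)
  have hlim : Tendsto (fun x : ℝ => (s : ℝ) *
      ((Real.log x / Real.log (x + x)) ^ a - Real.log x ^ a / x)) atTop (𝓝 s) := by
    have e1 := hr.rpow_const (p := a) (Or.inl one_ne_zero)
    have e2 := (e1.sub (pow_div_lim a)).const_mul (s : ℝ)
    simpa using e2
  have h3 : (s : ℝ) ≤ 1 := by
    refine le_of_tendsto_of_tendsto hlim (dyadic hpnt) ?_
    filter_upwards [eventually_ge_atTop x0] with x g2
    have hx1 : 1 < x := by linarith
    have hlx : 0 < Real.log x := Real.log_pos hx1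
    have hLx : 0 < Real.log (x + x) := Real.log_pos (by linarith)
    have h3 := low hp ha s.2 hx0 h g2 (by linarith : 0 ≤ x)
    have h4 : Real.log x / x * ((s : ℝ) * Real.log x ^ (a - 1) *
        (x / Real.log (x + x) ^ a - 1)) ≤
        Real.log x / x * ((primeCount p (x + x) : ℝ) - primeCount p x) :=
      mul_le_mul_of_nonneg_left h3 (by positivity)
    refine le_trans (le_of_eq ?_) h4
    rw [Real.div_rpow hlx.le hLx.le, Real.rpow_sub_one hlx.ne']
    have e2 : 0 < Real.log x ^ a := by positivity
    have e3 : 0 < Real.log (x + x) ^ a := by positivity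
    field_simp
  exact_mod_cast h3

theorem one_le_U {p : ℕ → ℝ} (hp : IsSystem p)
    (hpnt : Tendsto (fun x => (primeCount p x : ℝ) * Real.log x / x) atTop (𝓝 1)) {a : ℝ} (ha : 1 < a) : 1 ≤ U p a := by
  apply le_of_forall_gt_imp_ge_of_dense
  intro c hc
  rcases eq_or_ne c ⊤ with rfl | hct
  · exact le_top
  lift c to NNReal using hct with s
  obtain ⟨x0, hx0, h⟩ := ev_upper hc
  have hr := ratio_lim (T := fun x => x) (by
      filter_upwards [eventually_ge_atTop 0] with x hx
      exact ⟨hx, le_rfl⟩)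
  have hdd : Tendsto (fun x : ℝ => x + x) atTop atTop := tendsto_id.atTop_add_atTop tendsto_id
  have hz : Tendsto (fun x : ℝ => Real.log (x + x) ^ (a - 1) * Real.log x / x) atTop (𝓝 0) := by
    have e1 := ((pow_div_lim a).comp hdd).const_mul 2
    rw [mul_zero] at e1
    refine squeeze_zero' ?_ ?_ e1
    · filter_upwards [eventually_gt_atTop 1] with x hx
      have hlx : 0 < Real.log x := Real.log_pos hx
      have hLx : 0 < Real.log (x + x) := Real.log_pos (by linarith)
      positivity
    · filter_upwards [eventually_gt_atTop 1] with x hx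
      have hlx : 0 < Real.log x := Real.log_pos hx
      have hLx : 0 < Real.log (x + x) := Real.log_pos (by linarith)
      have e2 : Real.log x ≤ Real.log (x + x) := Real.log_le_log (by linarith) (by linarith)
      simp only [Function.comp]
      have e3 : Real.log (x + x) ^ a = Real.log (x + x) ^ (a - 1) * Real.log (x + x) := by
        rw [Real.rpow_sub_one hLx.ne', div_mul_cancel₀ _ hLx.ne']
      rw [e3]
      have e4 : 2 * (Real.log (x + x) ^ (a - 1) * Real.log (x + x) / (x + x)) =
          Real.log (x + x) ^ (a - 1) * Real.log (x + x) / x := by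
        field_simp
        ring
      rw [e4]
      apply div_le_div_of_nonneg_right _ (by linarith)
      exact mul_le_mul_of_nonneg_left e2 (by positivity)
  have hlim : Tendsto (fun x : ℝ => (s : ℝ) *
      (((Real.log x / Real.log (x + x))⁻¹) ^ (a - 1) +
        Real.log (x + x) ^ (a - 1) * Real.log x / x)) atTop (𝓝 s) := by
    have e1 := (hr.inv₀ one_ne_zero).rpow_const (p := a - 1) (Or.inl (by norm_num))
    have e2 := (e1.add hz).const_mul (s : ℝ)
    simpa using e2
  have h3 : (1 : ℝ) ≤ s := by
    refine le_of_tendsto_of_tendsto (dyadic hpnt) hlim ?_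
    filter_upwards [eventually_ge_atTop x0] with x g2
    have hx1 : 1 < x := by linarith
    have hlx : 0 < Real.log x := Real.log_pos hx1
    have hLx : 0 < Real.log (x + x) := Real.log_pos (by linarith)
    have h3 := upp hp ha s.2 hx0 h g2 (by linarith : 0 ≤ x)
    have h4 : Real.log x / x * ((primeCount p (x + x) : ℝ) - primeCount p x) ≤
        Real.log x / x * ((s : ℝ) * Real.log (x + x) ^ (a - 1) *
        (x / Real.log x ^ a + 1)) :=
      mul_le_mul_of_nonneg_left h3 (by positivity)
    refine le_trans h4 (le_of_eq ?_)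
    rw [inv_div, Real.div_rpow hLx.le hlx.le, Real.rpow_sub_one hlx.ne']
    have e2 : 0 < Real.log x ^ a := by positivity
    have e3 : 0 < Real.log (x + x) ^ (a - 1) := by positivity
    field_simp
  exact_mod_cast h3

end Pool.Agent.H41.PM
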