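import Pool.Agent.H41.PM.Defs

/-! # Project PM: the number of generalised primes `≤ x` (helper33) -/

set_option autoImplicit false

open MeasureTheory Filter Topology Set

namespace Pool.Agent.H41.PM

namespace PiAux

theorem phi_cont (x H : ℝ) : Continuous (phi x H) := by unfold phi; fun_prop

theorem phi_nonneg (x H t : ℝ) : 0 ≤ phi x H t := le_max_left _ _

theorem phi_le_one (x H t : ℝ) : phi x H t ≤ 1 :=
  max_le zero_le_one (min_le_left _ _)

theorem phi_zero_left {x H t : ℝ} (h : t ≤ x - 1) : phi x H t = 0 := by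
  unfold phi
  exact max_eq_left ((min_le_right _ _).trans ((min_le_left _ _).trans (by linarith)))

theorem phi_zero_right {x H t : ℝ} (h : x + H + 1 ≤ t) : phi x H t = 0 := by
  unfold phi
  exact max_eq_left ((min_le_right _ _).trans ((min_le_right _ _).trans (by linarith)))

theorem phi_ii (x H s t : ℝ) : IntervalIntegrable (phi x H) volume s t :=
  (phi_cont x H).intervalIntegrable s t

/-- the integral of `phi` -/
theorem phi_int {x H : ℝ} (hH : 0 ≤ H) {s t : ℝ} (hst : s ≤ t) :
    ∫ v in s..t, phi x H v ≤ H + 2 := by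
  set B : Set ℝ := Ioo (x - 1) (x + H + 1) with hB
  have hind : IntegrableOn (B.indicator fun _ => (1 : ℝ)) (Ioc s t) := by
    refine (integrable_const (μ := volume.restrict (Ioc s t)) (1 : ℝ)).indicator measurableSet_Ioo
  calc ∫ v in s..t, phi x H v = ∫ v in Ioc s t, phi x H v :=
        intervalIntegral.integral_of_le hst
    _ ≤ ∫ v in Ioc s t, B.indicator (fun _ => (1 : ℝ)) v := by
        refine setIntegral_mono (phi_ii x H s t).1 hind fun v => ?_
        by_cases h : v ∈ B
        · rw [Set.indicator_of_mem h]; exact phi_le_one _ _ _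
        · rw [Set.indicator_of_notMem h]
          rw [hB, mem_Ioo, not_and_or, not_lt, not_lt] at h
          rcases h with h | h
          · exact (phi_zero_left h).le
          · exact (phi_zero_right h).le
    _ = ∫ v in Ioc s t ∩ B, (1 : ℝ) := setIntegral_indicator measurableSet_Ioo
    _ = volume.real (Ioc s t ∩ B) := by simp
    _ ≤ volume.real B := measureReal_mono Set.inter_subset_right (by rw [hB]; simp)
    _ = H + 2 := by rw [hB, Real.volume_real_Ioo_of_le (by linarith)]; ring

/-- the integral of `phi / log` -/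
theorem phi_log {x H : ℝ} (hH : 0 ≤ H) {s t : ℝ} (hs : Real.exp 1 ≤ s) (hst : s ≤ t) :
    IntervalIntegrable (fun v => phi x H v / Real.log v) volume s t ∧
    0 ≤ ∫ v in s..t, phi x H v / Real.log v ∧ ∫ v in s..t, phi x H v / Real.log v ≤ H + 2 := by
  have hpos : ∀ v ∈ Icc s t, 1 ≤ Real.log v := fun v hv =>
    (Real.le_log_iff_exp_le ((Real.exp_pos 1).trans_le (hs.trans hv.1))).2 (hs.trans hv.1)
  have hint : IntervalIntegrable (fun v => phi x H v / Real.log v) volume s t := by
    apply ContinuousOn.intervalIntegrable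
    rw [uIcc_of_le hst]
    intro v hv
    apply ContinuousAt.continuousWithinAt
    apply ContinuousAt.div (phi_cont x H).continuousAt
    · exact Real.continuousAt_log ((Real.exp_pos 1).trans_le (hs.trans hv.1)).ne'
    · linarith [hpos v hv]
  refine ⟨hint, ?_, ?_⟩
  · exact intervalIntegral.integral_nonneg hst fun v hv =>
      div_nonneg (phi_nonneg _ _ _) (by linarith [hpos v hv])
  · refine (intervalIntegral.integral_mono_on hst hint (phi_ii x H s t) fun v hv => ?_).trans
      (phi_int hH hst)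
    exact div_le_self (phi_nonneg _ _ _) (hpos v hv)

theorem log_ii {a b : ℝ} (ha : 1 < a) (hab : a ≤ b) :
    IntervalIntegrable (fun t : ℝ => 1 / Real.log t) volume a b := by
  apply ContinuousOn.intervalIntegrable
  rw [uIcc_of_le hab]
  intro t ht
  apply ContinuousAt.continuousWithinAt
  apply ContinuousAt.div continuousAt_const
  · exact Real.continuousAt_log (by linarith [ht.1])
  · exact (Real.log_pos (by linarith [ht.1])).ne'

section
variable {b d X : ℕ → ℝ} (H : Zones b d X)
include H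

theorem X_ge (j : ℕ) : Real.exp j * Real.exp 8 ≤ X j := by
  induction j with
  | zero => simpa using H.start
  | succ j ih =>
    have h1 := H.far j
    have h2 : Real.exp 1 ≤ 16 := by linarith [Real.exp_one_lt_d9]
    push_cast
    rw [Real.exp_add]
    have h3 : 0 < Real.exp j * Real.exp 8 := by positivity
    nlinarith

theorem X_pos (j : ℕ) : 1 ≤ X j := by
  have h1 := X_ge H j
  have h2 : 1 ≤ Real.exp (j : ℝ) := Real.one_le_exp (by positivity)
  have h3 : 1 ≤ Real.exp 8 := Real.one_le_exp (by norm_num)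
  nlinarith

theorem X_mono : Monotone X := by
  refine monotone_nat_of_le_succ fun j => ?_
  linarith [H.far j, X_pos H j]

theorem HH (j : ℕ) : 0 ≤ Real.log (X j) ^ b j := by
  have := Real.log_nonneg (X_pos H j)
  positivity

/-- the density up to `x` is a finite sum -/
theorem rel_fin {x t : ℝ} {N : ℕ} (hN : x ≤ X N - 1) (ht : t ≤ x) :
    rel b d X t = 1 + ∑ j ∈ Finset.range N, (d j - 1) * phi (X j) (Real.log (X j) ^ b j) t := by
  rw [rel, tsum_eq_sum]
  intro j hj
  have hj' : N ≤ j := by simpa using hj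
  rw [phi_zero_left (by linarith [X_mono H hj']), mul_zero]

theorem int_rel {x : ℝ} (hx : Real.exp 4 ≤ x) {N : ℕ} (hN : x ≤ X N - 1) :
    |(∫ t in Real.exp 4..x, rel b d X t / Real.log t) - ∫ t in Real.exp 4..x, 1 / Real.log t| ≤
      ∑ j ∈ Finset.range N, X j ^ (1 / ((j : ℝ) + 3)) := by
  have he : Real.exp 1 ≤ Real.exp 4 := Real.exp_le_exp.2 (by norm_num)
  have h1 : 1 < Real.exp 4 := Real.one_lt_exp_iff.2 (by norm_num)
  have e1 : ∫ t in Real.exp 4..x, rel b d X t / Real.log t =
      ∫ t in Real.exp 4..x, (1 / Real.log t + ∑ j ∈ Finset.range N,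
        (d j - 1) * (phi (X j) (Real.log (X j) ^ b j) t / Real.log t)) := by
    refine intervalIntegral.integral_congr fun t ht => ?_
    rw [uIcc_of_le hx] at ht
    rw [rel_fin H hN ht.2, add_div, Finset.sum_div]
    congr 1
    exact Finset.sum_congr rfl fun j _ => by ring
  have hi : ∀ j ∈ Finset.range N, IntervalIntegrable (fun t => (d j - 1) *
      (phi (X j) (Real.log (X j) ^ b j) t / Real.log t)) volume (Real.exp 4) x :=
    fun j _ => (phi_log (HH H j) he hx).1.const_mul _
  have hi' : IntervalIntegrable (fun t => ∑ j ∈ Finset.range N, (d j - 1) *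
      (phi (X j) (Real.log (X j) ^ b j) t / Real.log t)) volume (Real.exp 4) x := by
    have := IntervalIntegrable.sum (Finset.range N) hi
    refine this.congr (fun t _ => ?_)
    simp
  rw [e1, intervalIntegral.integral_add (log_ii h1 hx) hi',
    intervalIntegral.integral_finsetSum hi, add_sub_cancel_left]
  refine (Finset.abs_sum_le_sum_abs _ _).trans (Finset.sum_le_sum fun j _ => ?_)
  rw [intervalIntegral.integral_const_mul, abs_mul]
  obtain ⟨-, h2, h3⟩ := phi_log (x := X j) (HH H j) he hx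
  rw [abs_of_nonneg h2]
  have h4 : |d j - 1| ≤ 1 + d j := by
    have := H.d_nonneg j
    rw [abs_le]; constructor <;> linarith
  calc |d j - 1| * ∫ v in Real.exp 4..x, phi (X j) (Real.log (X j) ^ b j) v / Real.log v
      ≤ (1 + d j) * (Real.log (X j) ^ b j + 2) := by
        have := H.d_nonneg j
        gcongr
    _ ≤ _ := H.short j

theorem sum_le {ε : ℝ} (hε : 0 < ε) : ∃ A : ℝ, 0 ≤ A ∧ ∀ (x : ℝ) (N : ℕ), 1 ≤ x →
    (∀ j < N, X j ≤ 2 * x) → ∑ j ∈ Finset.range N, X j ^ (1 / ((j : ℝ) + 3)) ≤ A * x ^ ε := by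
  obtain ⟨J, hJ⟩ := exists_nat_gt (2 / ε)
  set C : ℝ := ∑ j ∈ Finset.range J, X j ^ (1 / ((j : ℝ) + 3)) with hC
  have hXp : ∀ j, 0 ≤ X j ^ (1 / ((j : ℝ) + 3)) := fun j => by
    have := X_pos H j; positivity
  have hC0 : 0 ≤ C := Finset.sum_nonneg fun j _ => hXp j
  refine ⟨C + (1 + 2 / ε) * 2 ^ ε, by positivity, fun x N hx hN => ?_⟩
  set y : ℝ := 2 * x with hy
  have hy1 : 1 ≤ y := by linarith
  have hyε : 1 ≤ y ^ (ε / 2) := Real.one_le_rpow hy1 (by positivity)
  have h1 : ∑ j ∈ Finset.range N, X j ^ (1 / ((j : ℝ) + 3)) ≤ C + N * y ^ (ε / 2) := by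
    have h2 : ∀ j ∈ Finset.range N, X j ^ (1 / ((j : ℝ) + 3)) ≤
        (if j ∈ Finset.range J then X j ^ (1 / ((j : ℝ) + 3)) else 0) + y ^ (ε / 2) := by
      intro j hj
      split_ifs with h
      · linarith
      · have hjJ : J ≤ j := by simpa using h
        have hjJ' : (J : ℝ) ≤ j := by exact_mod_cast hjJ
        have hXj := hN j (Finset.mem_range.1 hj)
        have h3 : 1 / ((j : ℝ) + 3) ≤ ε / 2 := by
          rw [div_le_div_iff₀ (by positivity) (by norm_num)]
          rw [div_lt_iff₀ hε] at hJ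
          nlinarith
        calc X j ^ (1 / ((j : ℝ) + 3)) ≤ y ^ (1 / ((j : ℝ) + 3)) :=
              Real.rpow_le_rpow (by linarith [X_pos H j]) hXj (by positivity)
          _ ≤ y ^ (ε / 2) := Real.rpow_le_rpow_of_exponent_le hy1 h3
          _ = 0 + y ^ (ε / 2) := by ring
    calc ∑ j ∈ Finset.range N, X j ^ (1 / ((j : ℝ) + 3))
        ≤ ∑ j ∈ Finset.range N, ((if j ∈ Finset.range J then X j ^ (1 / ((j : ℝ) + 3)) else 0) +
          y ^ (ε / 2)) := Finset.sum_le_sum h2
      _ = ∑ j ∈ Finset.range N, (if j ∈ Finset.range J then X j ^ (1 / ((j : ℝ) + 3)) else 0) +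
          N * y ^ (ε / 2) := by rw [Finset.sum_add_distrib]; simp
      _ ≤ C + N * y ^ (ε / 2) := by
          gcongr
          rw [← Finset.sum_filter]
          refine Finset.sum_le_sum_of_subset_of_nonneg ?_ fun j _ _ => hXp j
          intro j hj
          exact (Finset.mem_filter.1 hj).2
  have h2 : (N : ℝ) ≤ 1 + Real.log y := by
    rcases Nat.eq_zero_or_pos N with h | h
    · rw [h]; push_cast; linarith [Real.log_nonneg hy1]
    · obtain ⟨M, rfl⟩ : ∃ M, N = M + 1 := ⟨N - 1, by omega⟩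
      have h3 := hN M (by omega)
      have h4 := X_ge H M
      have h5 : Real.exp M ≤ y := by
        have : 1 ≤ Real.exp 8 := Real.one_le_exp (by norm_num)
        have h6 := Real.exp_pos (M : ℝ)
        nlinarith
      have h6 := (Real.le_log_iff_exp_le (by linarith)).2 h5
      push_cast
      linarith
  have h3 : Real.log y ≤ y ^ (ε / 2) / (ε / 2) := Real.log_le_rpow_div (by linarith) (by positivity)
  have h4 : y ^ (ε / 2) / (ε / 2) = 2 / ε * y ^ (ε / 2) := by field_simp
  have h5 : (N : ℝ) ≤ (1 + 2 / ε) * y ^ (ε / 2) := by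
    rw [h4] at h3
    have : 0 ≤ 2 / ε := by positivity
    nlinarith
  have h6 : y ^ (ε / 2) * y ^ (ε / 2) = 2 ^ ε * x ^ ε := by
    rw [← Real.rpow_add (by linarith), add_halves, hy, Real.mul_rpow (by norm_num) (by linarith)]
  have h7 : 1 ≤ x ^ ε := Real.one_le_rpow hx hε.le
  calc _ ≤ C + N * y ^ (ε / 2) := h1
    _ ≤ C + ((1 + 2 / ε) * y ^ (ε / 2)) * y ^ (ε / 2) := by gcongr
    _ = C + (1 + 2 / ε) * (2 ^ ε * x ^ ε) := by rw [mul_assoc, h6]
    _ ≤ (C + (1 + 2 / ε) * 2 ^ ε) * x ^ ε := by nlinarith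

end

end PiAux

open PiAux in
theorem pi_law {b d X : ℕ → ℝ} (H : Zones b d X) {p : ℕ → ℝ} (hs : IsSystem p)
    (hp : ∀ x, Real.exp 4 ≤ x → |(primeCount p x : ℝ) - ∫ t in Real.exp 4..x, rel b d X t / Real.log t| ≤ 1)
    {ε : ℝ} (hε : 0 < ε) :
    ∃ A : ℝ, ∀ x : ℝ, 2 ≤ x → |(primeCount p x : ℝ) - ∫ t in (2 : ℝ)..x, 1 / Real.log t| ≤ A * x ^ ε := by
  obtain ⟨A, hA0, hA⟩ := sum_le H hε
  have he2 : (2 : ℝ) ≤ Real.exp 4 := by linarith [Real.add_one_le_exp (4 : ℝ)]
  set I : ℝ := ∫ t in (2 : ℝ)..Real.exp 4, 1 / Real.log t with hI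
  have hlogpos : ∀ t : ℝ, 2 ≤ t → 0 ≤ 1 / Real.log t := fun t ht =>
    one_div_nonneg.2 (Real.log_nonneg (by linarith))
  have hI0 : 0 ≤ I := intervalIntegral.integral_nonneg he2 fun t ht => hlogpos t ht.1
  refine ⟨A + 1 + I, fun x hx => ?_⟩
  have hxε : 1 ≤ x ^ ε := Real.one_le_rpow (by linarith) hε.le
  rcases le_total (Real.exp 4) x with hx4 | hx4
  · -- large `x`
    have hex : ∃ N, x ≤ X N - 1 := by
      obtain ⟨N, hN⟩ := exists_nat_ge (x + 1)
      refine ⟨N, ?_⟩
      have h1 := X_ge H N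
      have h2 : (N : ℝ) + 1 ≤ Real.exp N := Real.add_one_le_exp _
      have h3 : 1 ≤ Real.exp 8 := Real.one_le_exp (by norm_num)
      have h4 : (0 : ℝ) ≤ N := Nat.cast_nonneg N
      nlinarith
    classical
    obtain ⟨N, hN1, hN2⟩ : ∃ N, x ≤ X N - 1 ∧ ∀ j < N, X j ≤ 2 * x :=
      ⟨Nat.find hex, Nat.find_spec hex, fun j hj => by
        have := not_le.mp (Nat.find_min hex hj)
        linarith⟩
    have h1 := int_rel H hx4 hN1
    have h2 := hA x N (by linarith) hN2
    have h3 := hp x hx4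
    have h4 : ∫ t in (2 : ℝ)..x, 1 / Real.log t = I + ∫ t in Real.exp 4..x, 1 / Real.log t :=
      (intervalIntegral.integral_add_adjacent_intervals (log_ii (by norm_num) he2)
        (log_ii (by linarith) hx4)).symm
    rw [h4]
    rw [abs_le] at h1 h3 ⊢
    constructor <;> nlinarith [h1.1, h1.2, h3.1, h3.2]
  · -- small `x`
    have h1 := hp (Real.exp 4) le_rfl
    rw [intervalIntegral.integral_same, sub_zero] at h1
    have hfin : {n : ℕ | p n ≤ Real.exp 4}.Finite := by
      obtain ⟨M, hM⟩ := eventually_atTop.1 (hs.tendsto.eventually_gt_atTop (Real.exp 4))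
      refine (Set.finite_lt_nat M).subset fun n hn => ?_
      by_contra hcon
      exact absurd (hM n (not_lt.mp hcon)) (not_lt.mpr hn)
    have h2 : primeCount p x ≤ primeCount p (Real.exp 4) :=
      Set.ncard_le_ncard (fun n (hn : p n ≤ x) => hn.trans hx4) hfin
    have h2' : (primeCount p x : ℝ) ≤ primeCount p (Real.exp 4) := by exact_mod_cast h2
    have h3 : 0 ≤ ∫ t in (2 : ℝ)..x, 1 / Real.log t :=
      intervalIntegral.integral_nonneg hx fun t ht => hlogpos t ht.1
    have h4 : ∫ t in (2 : ℝ)..x, 1 / Real.log t ≤ I := by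
      have h5 : I = (∫ t in (2 : ℝ)..x, 1 / Real.log t) + ∫ t in x..Real.exp 4, 1 / Real.log t :=
        (intervalIntegral.integral_add_adjacent_intervals (log_ii (by norm_num) hx)
          (log_ii (by linarith) hx4)).symm
      have h6 : 0 ≤ ∫ t in x..Real.exp 4, 1 / Real.log t :=
        intervalIntegral.integral_nonneg hx4 fun t ht => hlogpos t (hx.trans ht.1)
      linarith
    have h5 : (0 : ℝ) ≤ primeCount p x := Nat.cast_nonneg _
    rw [abs_le] at h1 ⊢
    constructor <;> nlinarith [h1.1, h1.2]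

end Pool.Agent.H41.PM
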