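import Pool.Agent.H41.PM.Defs

/-! # Project PM: existence of zones (helper33) -/

set_option autoImplicit false

open MeasureTheory Filter Topology Set

namespace Pool.Agent.H41.PM

namespace ZonAux

/-- the conditions on `x = X j` -/
def Good (b d : ℕ → ℝ) (j : ℕ) (x : ℝ) : Prop :=
  Real.exp 8 ≤ x ∧ d j ≤ Real.log x / 2 ∧
  (1 + d j) * (Real.log x ^ b j + 2) ≤ x ^ (1 / ((j : ℝ) + 3)) ∧
  ∀ i ≤ j, b j < b i → (1 + d j) * (Real.log x ^ b j + 2) ≤ Real.log x ^ b i / (j + 1)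

theorem ev_short {b c ε : ℝ} (hb : 0 < b) (hc : 0 ≤ c) (hε : 0 < ε) :
    ∀ᶠ x : ℝ in atTop, c * (Real.log x ^ b + 2) ≤ x ^ ε := by
  have h1 : (fun x : ℝ => Real.log x ^ b) =o[atTop] fun x => x ^ ε :=
    isLittleO_log_rpow_rpow_atTop b hε
  have h2 := h1.def (c := 1 / (3 * (c + 1))) (by positivity)
  have h3 : ∀ᶠ x : ℝ in atTop, 1 ≤ Real.log x := Real.tendsto_log_atTop.eventually_ge_atTop 1
  filter_upwards [h2, h3, eventually_ge_atTop 1] with x h2 h3 h4
  have h5 : 1 ≤ Real.log x ^ b := Real.one_le_rpow h3 hb.le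
  have h6 : 0 ≤ x ^ ε := by positivity
  rw [Real.norm_of_nonneg (by linarith), Real.norm_of_nonneg h6] at h2
  have h7 : Real.log x ^ b * (3 * (c + 1)) ≤ x ^ ε := by
    calc Real.log x ^ b * (3 * (c + 1)) ≤ (1 / (3 * (c + 1)) * x ^ ε) * (3 * (c + 1)) := by gcongr
      _ = x ^ ε := by field_simp
  nlinarith

theorem ev_small {b b' c k : ℝ} (hb : 0 < b) (hbb : b < b') (hc : 0 ≤ c) (hk : 0 < k) :
    ∀ᶠ x : ℝ in atTop, c * (Real.log x ^ b + 2) ≤ Real.log x ^ b' / k := by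
  have h1 : ∀ᶠ y : ℝ in atTop, 3 * c * k ≤ y ^ (b' - b) :=
    (tendsto_rpow_atTop (by linarith)).eventually_ge_atTop _
  have h2 : ∀ᶠ y : ℝ in atTop, c * (y ^ b + 2) ≤ y ^ b' / k := by
    filter_upwards [h1, eventually_ge_atTop 1] with y h1 h2
    have h5 : 1 ≤ y ^ b := Real.one_le_rpow h2 hb.le
    have h6 : y ^ b' = y ^ (b' - b) * y ^ b := by
      rw [← Real.rpow_add (by linarith)]; congr 1; ring
    rw [h6, le_div_iff₀ hk]
    have h7 : 3 * c * k * y ^ b ≤ y ^ (b' - b) * y ^ b := by gcongr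
    have h8 : 0 ≤ c * k := by positivity
    nlinarith
  exact Real.tendsto_log_atTop.eventually h2

theorem good_ev (b d : ℕ → ℝ) (hb : ∀ j, 1 < b j) (hd : ∀ j, 0 ≤ d j) (j : ℕ) :
    ∀ᶠ x : ℝ in atTop, Good b d j x := by
  have h1 : ∀ᶠ x : ℝ in atTop, ∀ i ∈ Finset.range (j + 1), b j < b i →
      (1 + d j) * (Real.log x ^ b j + 2) ≤ Real.log x ^ b i / (j + 1) := by
    rw [Filter.eventually_all_finset]
    intro i _
    by_cases h : b j < b i
    · filter_upwards [ev_small (b := b j) (b' := b i) (c := 1 + d j) (k := (j : ℝ) + 1)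
        (by linarith [hb j]) h (by linarith [hd j]) (by positivity)] with x hx _ using hx
    · exact Eventually.of_forall fun x h' => absurd h' h
  filter_upwards [h1, eventually_ge_atTop (Real.exp 8),
    Real.tendsto_log_atTop.eventually_ge_atTop (2 * d j),
    ev_short (b := b j) (c := 1 + d j) (ε := 1 / ((j : ℝ) + 3)) (by linarith [hb j])
      (by linarith [hd j]) (by positivity)] with x h1 h2 h3 h4
  exact ⟨h2, by linarith, h4, fun i hi => h1 i (Finset.mem_range.2 (by omega))⟩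

end ZonAux

open ZonAux in
theorem exists_zones (b d : ℕ → ℝ) (hb : ∀ j, 1 < b j) (hd : ∀ j, 0 ≤ d j) :
    ∃ X, Zones b d X := by
  have h : ∀ (j : ℕ) (y : ℝ), ∃ x, y ≤ x ∧ Good b d j x := fun j y =>
    ((eventually_ge_atTop y).and (good_ev b d hb hd j)).exists
  choose F hF1 hF2 using h
  let X : ℕ → ℝ := fun n => Nat.rec (F 0 0) (fun j x => F (j + 1) (16 * x)) n
  have hX : ∀ j, Good b d j (X j) := by
    intro j
    cases j with
    | zero => exact hF2 0 0
    | succ j => exact hF2 (j + 1) (16 * X j)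
  exact ⟨X, ⟨fun j => by linarith [hb j], hd, (hX 0).1, fun j => hF1 (j + 1) (16 * X j),
    fun j => (hX j).2.1, fun j => (hX j).2.2.1, fun i j hij hbb => (hX j).2.2.2 i hij hbb⟩⟩

end Pool.Agent.H41.PM
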