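import Pool.Agent.H41.PM.Sys
import Pool.Agent.H41.PM.Loc
import Pool.Agent.H41.PM.Pi
import Pool.Agent.H41.PM.Zon
import Pool.Agent.H41.PM.Mon

/-! # Project PM: final assembly -/

set_option autoImplicit false

open MeasureTheory Filter Topology Set

namespace Pool.Agent.H41.PM

lemma X_pos {b d X : ℕ → ℝ} (H : Zones b d X) (j : ℕ) : Real.exp 8 ≤ X j := by
  induction j with
  | zero => exact H.start
  | succ j ih =>
    have := H.far j
    have h8 := Real.exp_pos 8
    linarith

lemma X_tendsto {b d X : ℕ → ℝ} (H : Zones b d X) : Tendsto X atTop atTop := by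
  have h : ∀ j : ℕ, (j : ℝ) ≤ X j := by
    intro j
    induction j with
    | zero => simpa using (Real.exp_pos 8).le.trans H.start
    | succ j ih =>
      have := H.far j
      have h1 := X_pos H j
      have h8 : (1:ℝ) ≤ Real.exp 8 := Real.one_le_exp (by norm_num)
      push_cast
      linarith
  exact tendsto_atTop_mono h tendsto_natCast_atTop_atTop

lemma frequently_rat_gt (a : ℝ) : ∃ᶠ x in 𝓝[>] a, x ∈ range ((↑) : ℚ → ℝ) := by
  rw [frequently_iff]
  intro S hS
  obtain ⟨c, hc, hsub⟩ := (mem_nhdsGT_iff_exists_Ioo_subset).1 hS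
  obtain ⟨q, hq1, hq2⟩ := exists_rat_btwn (show a < c from hc)
  exact ⟨q, hsub ⟨hq1, hq2⟩, ⟨q, rfl⟩⟩

lemma frequently_rat_lt (a : ℝ) : ∃ᶠ x in 𝓝[<] a, x ∈ range ((↑) : ℚ → ℝ) := by
  rw [frequently_iff]
  intro S hS
  obtain ⟨c, hc, hsub⟩ := (mem_nhdsLT_iff_exists_Ioo_subset).1 hS
  obtain ⟨q, hq1, hq2⟩ := exists_rat_btwn (show c < a from hc)
  exact ⟨q, hsub ⟨hq1, hq2⟩, ⟨q, rfl⟩⟩

lemma squeeze_mono {f g : ℝ → ENNReal} {a : ℝ} (ha : 1 < a) (hf : ContinuousAt f a)
    (hfg : ∀ x : ℝ, 1 < x → x ∈ range ((↑) : ℚ → ℝ) → g x = f x)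
    (hg : ∀ x y : ℝ, 1 < x → x < y → g x ≤ g y) : g a = f a := by
  refine le_antisymm ?_ ?_
  · refine ge_of_tendsto_of_frequently (hf.tendsto.mono_left nhdsWithin_le_nhds) (x := 𝓝[>] a) ?_
    refine ((frequently_rat_gt a).and_eventually self_mem_nhdsWithin).mono fun x hx => ?_
    rw [← hfg x (ha.trans hx.2) hx.1]
    exact hg a x ha hx.2
  · refine le_of_tendsto_of_frequently (hf.tendsto.mono_left nhdsWithin_le_nhds) (x := 𝓝[<] a) ?_
    have h1 : ∀ᶠ x in 𝓝[<] a, 1 < x := nhdsWithin_le_nhds (lt_mem_nhds ha)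
    refine ((frequently_rat_lt a).and_eventually (eventually_mem_nhdsWithin.and h1)).mono fun x hx => ?_
    rw [← hfg x hx.2.2 hx.1]
    exact hg x a hx.2.2 hx.2.1

lemma squeeze_anti {f g : ℝ → ENNReal} {a : ℝ} (ha : 1 < a) (hf : ContinuousAt f a)
    (hfg : ∀ x : ℝ, 1 < x → x ∈ range ((↑) : ℚ → ℝ) → g x = f x)
    (hg : ∀ x y : ℝ, 1 < x → x < y → g y ≤ g x) : g a = f a := by
  refine le_antisymm ?_ ?_
  · refine ge_of_tendsto_of_frequently (hf.tendsto.mono_left nhdsWithin_le_nhds) (x := 𝓝[<] a) ?_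
    have h1 : ∀ᶠ x in 𝓝[<] a, 1 < x := nhdsWithin_le_nhds (lt_mem_nhds ha)
    refine ((frequently_rat_lt a).and_eventually (eventually_mem_nhdsWithin.and h1)).mono fun x hx => ?_
    rw [← hfg x hx.2.2 hx.1]
    exact hg x a hx.2.2 hx.2.1
  · refine le_of_tendsto_of_frequently (hf.tendsto.mono_left nhdsWithin_le_nhds) (x := 𝓝[>] a) ?_
    refine ((frequently_rat_gt a).and_eventually self_mem_nhdsWithin).mono fun x hx => ?_
    rw [← hfg x (ha.trans hx.2) hx.1]
    exact hg a x ha hx.2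


/-- the data of the zones: `b j` runs through `β` infinitely often, once for `l` (even `j`), once for `u` (odd `j`) -/
noncomputable def bb (β : ℕ → ℝ) (j : ℕ) : ℝ := β (Nat.unpair (j / 2)).1

open Classical in
/-- the densities on the zones -/
noncomputable def dd (l u : ℝ → ENNReal) (β : ℕ → ℝ) (j : ℕ) : ℝ :=
  if Even j then (l (bb β j)).toReal else (min (u (bb β j)) (j : ENNReal)).toReal

section core

variable {l u : ℝ → ENNReal} {β : ℕ → ℝ} {X : ℕ → ℝ} {p : ℕ → ℝ}

lemma dd_nonneg (j : ℕ) : 0 ≤ dd l u β j := by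
  unfold dd; split_ifs <;> exact ENNReal.toReal_nonneg

/-- infinitely many even and odd places of each kind -/
lemma bb_even (i : ℕ) : ∃ᶠ j : ℕ in atTop, Even j ∧ bb β j = bb β i := by
  rw [frequently_atTop]
  intro N
  refine ⟨2 * Nat.pair (Nat.unpair (i / 2)).1 N, ?_, even_two_mul _, ?_⟩
  · have := Nat.right_le_pair (Nat.unpair (i / 2)).1 N
    omega
  · unfold bb
    rw [Nat.mul_div_cancel_left _ (by norm_num), Nat.unpair_pair]

lemma bb_odd (i : ℕ) : ∃ᶠ j : ℕ in atTop, ¬ Even j ∧ bb β j = bb β i := by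
  rw [frequently_atTop]
  intro N
  refine ⟨2 * Nat.pair (Nat.unpair (i / 2)).1 N + 1, ?_, ?_, ?_⟩
  · have := Nat.right_le_pair (Nat.unpair (i / 2)).1 N
    omega
  · rw [Nat.not_even_iff_odd]; exact odd_two_mul_add_one _
  · unfold bb
    have : (2 * Nat.pair (Nat.unpair (i / 2)).1 N + 1) / 2 = Nat.pair (Nat.unpair (i / 2)).1 N := by omega
    rw [this, Nat.unpair_pair]

variable (hβ : ∀ n, 1 < β n) (hl : MonotoneOn l (Ioi 1)) (hu : AntitoneOn u (Ioi 1))
  (hl1 : ∀ a, 1 < a → l a ≤ 1) (hu1 : ∀ a, 1 < a → 1 ≤ u a)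
  (H : Zones (bb β) (dd l u β) X) (hs : IsSystem p)
  (hp : ∀ x, Real.exp 4 ≤ x →
    |(primeCount p x : ℝ) - ∫ t in Real.exp 4..x, rel (bb β) (dd l u β) X t / Real.log t| ≤ 1)

include hβ hl hl1 hu1 H hs hp in
lemma L_core (i : ℕ) : L p (bb β i) = l (bb β i) := by
  have hb : ∀ j, 1 < bb β j := fun j => hβ _
  set a := bb β i with ha
  have hla : l a ≠ ⊤ := ne_top_of_le_ne_top ENNReal.one_ne_top (hl1 a (hb i))
  set c := (l a).toReal with hc
  have hc0 : 0 ≤ c := ENNReal.toReal_nonneg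
  have hc1 : c ≤ 1 := by
    have := ENNReal.toReal_mono ENNReal.one_ne_top (hl1 a (hb i))
    simpa using this
  have hlc : ENNReal.ofReal c = l a := ENNReal.ofReal_toReal hla
  refine le_antisymm ?_ ?_
  · refine ENNReal.le_of_forall_pos_le_add fun ε hε _ => ?_
    have hε' : (0:ℝ) < ε := by exact_mod_cast hε
    refine Filter.liminf_le_of_frequently_le' ?_
    have h1 := loc_at H hs hp (i := i) (hb i) (ε := ε / 2) (by positivity)
    have h2 := (bb_even (β := β) i).and_eventually h1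
    have h3 : ∃ᶠ j : ℕ in atTop, ENNReal.ofReal (R p a (X j)) ≤ l a + ε := by
      refine h2.mono fun j hj => ?_
      obtain ⟨⟨he, hbj⟩, h4⟩ := hj
      have h5 := h4 hbj
      have h6 : dd l u β j = c := by
        unfold dd; rw [if_pos he, hbj]
      rw [h6] at h5
      have h7 := (abs_le.1 h5).2
      calc ENNReal.ofReal (R p a (X j)) ≤ ENNReal.ofReal (c + ε) := ENNReal.ofReal_le_ofReal (by nlinarith)
        _ = l a + ε := by rw [ENNReal.ofReal_add hc0 hε'.le, hlc]; simp
    exact (X_tendsto H).frequently h3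
  · refine ENNReal.le_of_forall_pos_le_add fun ε hε _ => ?_
    have hε' : (0:ℝ) < ε := by exact_mod_cast hε
    have h1 := loc_low H hs hp (i := i) (hb i) (c := c) ?_ hc1 hε'
    · have h2 : ENNReal.ofReal (c - ε) ≤ L p a := by
        refine Filter.le_liminf_of_le (by isBoundedDefault) ?_
        filter_upwards [h1] with x hx
        exact ENNReal.ofReal_le_ofReal hx
      calc l a = ENNReal.ofReal c := hlc.symm
        _ ≤ ENNReal.ofReal (c - ε) + ENNReal.ofReal ε := by
            rw [← sub_add_cancel c (ε : ℝ)]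
            simpa using ENNReal.ofReal_add_le (p := c - ε) (q := ε)
        _ ≤ L p a + ε := by
            refine add_le_add h2 ?_
            simp
    · intro j hj
      unfold dd
      split_ifs with he
      · exact ENNReal.toReal_mono (ne_top_of_le_ne_top ENNReal.one_ne_top (hl1 _ (hb j))) (hl (hb i) (hb j) hj)
      · have hj1 : (1 : ENNReal) ≤ j := by
          have : 1 ≤ j := by
            rcases Nat.eq_zero_or_pos j with h | h
            · exact absurd (h ▸ Even.zero) he
            · exact h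
          exact_mod_cast this
        have h3 : (1 : ENNReal) ≤ min (u (bb β j)) (j : ENNReal) := le_min (hu1 _ (hb j)) hj1
        have h4 : min (u (bb β j)) (j : ENNReal) ≠ ⊤ := ne_top_of_le_ne_top (ENNReal.natCast_ne_top j) (min_le_right _ _)
        have h5 := ENNReal.toReal_mono h4 h3
        simp only [ENNReal.toReal_one] at h5
        linarith

include hβ hu hl1 hu1 H hs hp in
lemma U_core (i : ℕ) : U p (bb β i) = u (bb β i) := by
  have hb : ∀ j, 1 < bb β j := fun j => hβ _
  set a := bb β i with ha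
  refine le_antisymm ?_ ?_
  · by_cases hua : u a = ⊤
    · rw [hua]; exact le_top
    refine ENNReal.le_of_forall_pos_le_add fun ε hε _ => ?_
    have hε' : (0:ℝ) < ε := by exact_mod_cast hε
    set c := (u a).toReal with hc
    have hc1 : 1 ≤ c := by
      have := ENNReal.toReal_mono hua (hu1 a (hb i))
      simpa using this
    have huc : ENNReal.ofReal c = u a := ENNReal.ofReal_toReal hua
    have h1 := loc_up H hs hp (i := i) (hb i) (c := c) ?_ hc1 hε'
    · refine Filter.limsup_le_of_le (by isBoundedDefault) ?_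
      filter_upwards [h1] with x hx
      calc ENNReal.ofReal (R p a x) ≤ ENNReal.ofReal (c + ε) := ENNReal.ofReal_le_ofReal hx
        _ = u a + ε := by rw [ENNReal.ofReal_add (by linarith) hε'.le, huc]; simp
    · intro j hj
      unfold dd
      split_ifs with he
      · have := ENNReal.toReal_mono ENNReal.one_ne_top (hl1 _ (hb j))
        simp only [ENNReal.toReal_one] at this
        linarith
      · exact ENNReal.toReal_mono hua ((min_le_left _ _).trans (hu (hb i) (hb j) hj))
  · -- every `y < u a` is passed infinitely often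
    refine le_of_forall_lt fun y hy => ?_
    obtain ⟨z, hyz, hz⟩ := exists_between hy
    have hzt : z ≠ ⊤ := hz.ne_top
    have hyt : y ≠ ⊤ := (hyz.trans hz).ne_top
    refine lt_of_lt_of_le hyz ?_
    obtain ⟨w, hzw, hw⟩ := exists_between hz
    have hwt : w ≠ ⊤ := hw.ne_top
    have hzw' : z.toReal < w.toReal := (ENNReal.toReal_lt_toReal hzt hwt).2 hzw
    have hw0 : 0 ≤ w.toReal := ENNReal.toReal_nonneg
    have hz0 : 0 ≤ z.toReal := ENNReal.toReal_nonneg
    set ε : ℝ := (w.toReal - z.toReal) / (1 + w.toReal) with hε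
    have hε0 : 0 < ε := div_pos (by linarith) (by linarith)
    have hε1 : ε ≤ 1 := by rw [hε, div_le_one (by linarith)]; linarith
    refine Filter.le_limsup_of_frequently_le' ?_
    have h1 := loc_at H hs hp (i := i) (hb i) (ε := ε) hε0
    obtain ⟨N, hN⟩ := exists_nat_gt w.toReal
    have h2 := (bb_odd (β := β) i).and_eventually (h1.and (eventually_ge_atTop N))
    have h3 : ∃ᶠ j : ℕ in atTop, z ≤ ENNReal.ofReal (R p a (X j)) := by
      refine h2.mono fun j hj => ?_
      obtain ⟨⟨he, hbj⟩, h4, hjN⟩ := hj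
      have h5 := (abs_le.1 (h4 hbj)).1
      have h6 : w.toReal ≤ dd l u β j := by
        unfold dd
        rw [if_neg he, hbj]
        refine ENNReal.toReal_mono (ne_top_of_le_ne_top (ENNReal.natCast_ne_top j) (min_le_right _ _)) ?_
        refine le_min hw.le ?_
        rw [← ENNReal.ofReal_toReal hwt]
        have : w.toReal ≤ j := hN.le.trans (by exact_mod_cast hjN)
        calc ENNReal.ofReal w.toReal ≤ ENNReal.ofReal (j : ℝ) := ENNReal.ofReal_le_ofReal this
          _ = j := ENNReal.ofReal_natCast j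
      rw [← ENNReal.ofReal_toReal hzt]
      refine ENNReal.ofReal_le_ofReal ?_
      have h7 : ε * (1 + w.toReal) = w.toReal - z.toReal := by
        rw [hε]; exact div_mul_cancel₀ _ (by linarith)
      nlinarith
    exact (X_tendsto H).frequently h3

end core


/-- the prime number theorem in the form used for `L ≤ 1 ≤ U` follows from a power saving -/
theorem main_thm (l u : ℝ → ENNReal) (hl : MonotoneOn l (Ioi 1)) (hu : AntitoneOn u (Ioi 1))
    (hl1 : ∀ a, 1 < a → l a ≤ 1) (hu1 : ∀ a, 1 < a → 1 ≤ u a) :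
    ∃ p : ℕ → ℝ, IsSystem p ∧
      (∀ ε : ℝ, 0 < ε → ∃ A : ℝ, ∀ x : ℝ, 2 ≤ x →
        |(primeCount p x : ℝ) - ∫ t in (2 : ℝ)..x, 1 / Real.log t| ≤ A * x ^ ε) ∧
      (∃ c : ℝ, 0 < c ∧ ∀ ε : ℝ, 0 < ε → ∃ A : ℝ, ∀ x : ℝ, 1 ≤ x →
        |(integerCount p x : ℝ) - c * x| ≤ A * x ^ (1 / 2 + ε)) ∧
      ∀ a, 1 < a → L p a = l a ∧ U p a = u a := by
  classical
  -- extensions to the real line
  set l' : ℝ → ENNReal := fun a => if 1 < a then l a else 0 with hl'
  set u' : ℝ → ENNReal := fun a => if 1 < a then u a else ⊤ with hu'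
  have ml : Monotone l' := by
    intro x y hxy
    simp only [hl']
    by_cases hx : 1 < x
    · rw [if_pos hx, if_pos (hx.trans_le hxy)]; exact hl hx (hx.trans_le hxy) hxy
    · rw [if_neg hx]; exact bot_le
  have mu : Antitone u' := by
    intro x y hxy
    simp only [hu']
    by_cases hx : 1 < x
    · rw [if_pos hx, if_pos (hx.trans_le hxy)]; exact hu hx (hx.trans_le hxy) hxy
    · rw [if_neg hx]; exact le_top
  set B : Set ℝ := (({a | ¬ ContinuousAt l' a} ∪ {a | ¬ ContinuousAt u' a}) ∪ range ((↑) : ℚ → ℝ)) ∩ Ioi 1 with hB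
  have hBc : B.Countable :=
    ((ml.countable_not_continuousAt.union mu.countable_not_continuousAt).union (countable_range _)).mono
      inter_subset_left
  have hBne : B.Nonempty := ⟨2, Or.inr ⟨2, by norm_num⟩, by norm_num⟩
  obtain ⟨β, hβ⟩ := hBc.exists_eq_range hBne
  have hβ1 : ∀ n, 1 < β n := fun n => by
    have : β n ∈ B := hβ ▸ mem_range_self n
    exact this.2
  obtain ⟨X, H⟩ := exists_zones (bb β) (dd l u β) (fun j => hβ1 _) (fun j => dd_nonneg j)
  obtain ⟨p, hs, hp, hN⟩ := zones_system H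
  have hLB : ∀ a ∈ B, L p a = l a ∧ U p a = u a := by
    intro a ha
    rw [hβ] at ha
    obtain ⟨n, rfl⟩ := ha
    have h1 : bb β (2 * Nat.pair n 0) = β n := by
      unfold bb
      rw [Nat.mul_div_cancel_left _ (by norm_num), Nat.unpair_pair]
    rw [← h1]
    exact ⟨L_core hβ1 hl hl1 hu1 H hs hp _, U_core hβ1 hu hl1 hu1 H hs hp _⟩
  refine ⟨p, hs, fun ε hε => pi_law H hs hp hε, hN, fun a ha => ?_⟩
  by_cases haB : a ∈ B
  · exact hLB a haB
  have hcl : ContinuousAt l' a := by
    by_contra h; exact haB ⟨Or.inl (Or.inl h), ha⟩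
  have hcu : ContinuousAt u' a := by
    by_contra h; exact haB ⟨Or.inl (Or.inr h), ha⟩
  have e1 : l' a = l a := if_pos ha
  have e2 : u' a = u a := if_pos ha
  constructor
  · rw [← e1]
    refine squeeze_mono ha hcl (fun x hx hxr => ?_) fun x y hx hxy => L_mono hs hx hxy
    rw [(hLB x ⟨Or.inr hxr, hx⟩).1]
    exact (if_pos hx).symm
  · rw [← e2]
    refine squeeze_anti ha hcu (fun x hx hxr => ?_) fun x y hx hxy => U_anti hs hx hxy
    rw [(hLB x ⟨Or.inr hxr, hx⟩).2]
    exact (if_pos hx).symm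

theorem main_conv (p : ℕ → ℝ) (hp : IsSystem p)
    (hpnt : Tendsto (fun x => (primeCount p x : ℝ) * Real.log x / x) atTop (𝓝 1)) :
    MonotoneOn (L p) (Ioi 1) ∧ AntitoneOn (U p) (Ioi 1) ∧ ∀ a, 1 < a → L p a ≤ 1 ∧ 1 ≤ U p a := by
  refine ⟨fun a ha b _ hab => ?_, fun a ha b _ hab => ?_, fun a ha => ⟨L_le_one hp hpnt ha, one_le_U hp hpnt ha⟩⟩
  · rcases hab.eq_or_lt with h | h
    · rw [h]
    · exact L_mono hp ha h
  · rcases hab.eq_or_lt with h | h
    · rw [h]
    · exact U_anti hp ha h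

end Pool.Agent.H41.PM
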