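import Pool.Agent.H41.PM.Defs

/-! # Project PM: random approximation of an arbitrary density -/

set_option autoImplicit false

open MeasureTheory Filter Topology Set

namespace Pool.Agent.H41.PM

lemma Dens.ii {D : ℝ → ℝ} {v0 : ℝ} (H : Dens D v0) (a b : ℝ) : IntervalIntegrable D volume a b :=
  H.cont.intervalIntegrable a b

/-- the next cell -/
lemma Dens.next {D : ℝ → ℝ} {v0 : ℝ} (H : Dens D v0) {a : ℝ} (ha : v0 ≤ a) :
    ∃ b : ℝ, a < b ∧ b ≤ a + 1 ∧ ∫ w in a..b, D w = 1 := by
  have hc : ContinuousOn (fun b => ∫ w in a..b, D w) (Icc a (a + 1)) :=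
    (intervalIntegral.continuous_primitive (fun _ _ => H.ii _ _) a).continuousOn
  have h1 : (1:ℝ) ∈ Icc (∫ w in a..a, D w) (∫ w in a..a + 1, D w) := by
    rw [intervalIntegral.integral_same]
    exact ⟨zero_le_one, H.mass a ha⟩
  obtain ⟨b, hb, hb1⟩ := intermediate_value_Icc (by linarith : a ≤ a + 1) hc h1
  have hb1' : ∫ w in a..b, D w = 1 := hb1
  refine ⟨b, lt_of_le_of_ne hb.1 ?_, hb.2, hb1'⟩
  rintro rfl
  rw [intervalIntegral.integral_same] at hb1'
  norm_num at hb1'

theorem dens_system {D : ℝ → ℝ} {v0 : ℝ} (H : Dens D v0) : ∃ W : ℕ → ℝ, StrictMono W ∧ (∀ n, v0 < W n) ∧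
    Tendsto W atTop atTop ∧
    (∀ v, v0 ≤ v → |({n : ℕ | W n ≤ v}.ncard : ℝ) - ∫ w in v0..v, D w| ≤ 1) ∧
    ∃ c : ℝ, 0 < c ∧ ∀ ε : ℝ, 0 < ε → ∃ A : ℝ, ∀ x : ℝ, 1 ≤ x →
      |(BC.NN W x : ℝ) - c * x| ≤ A * x ^ (1 / 2 + ε) := by
  classical
  -- the endpoints
  choose! nx hnx1 hnx2 hnx3 using fun a (ha : v0 ≤ a) => H.next ha
  let α : ℕ → ℝ := fun n => Nat.rec v0 (fun _ a => nx a) n
  have α0 : α 0 = v0 := rfl
  have αs : ∀ n, α (n + 1) = nx (α n) := fun n => rfl
  have hα : ∀ n, v0 ≤ α n := by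
    intro n
    induction n with
    | zero => exact le_rfl
    | succ n ih => rw [αs]; exact ih.trans (hnx1 _ ih).le
  have hlt : ∀ n, α n < α (n + 1) := fun n => by rw [αs]; exact hnx1 _ (hα n)
  have hle1 : ∀ n, α (n + 1) ≤ α n + 1 := fun n => by rw [αs]; exact hnx2 _ (hα n)
  have hint : ∀ n, ∫ w in α n..α (n + 1), D w = 1 := fun n => by rw [αs]; exact hnx3 _ (hα n)
  have hmono : StrictMono α := strictMono_nat_of_lt_succ hlt
  have hmass : ∀ n, ∫ w in v0..α n, D w = n := by
    intro n
    induction n with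
    | zero => simp [α0]
    | succ n ih =>
      rw [← intervalIntegral.integral_add_adjacent_intervals (H.ii v0 (α n)) (H.ii _ _), ih, hint]
      push_cast; ring
  have hC : BC.Cells α (fun n => α (n + 1)) (fun _ => D) := by
    refine ⟨H.start, hlt, hle1, fun n => le_rfl, fun _ => H.cont, ?_, ?_, hint, ?_⟩
    · intro n v hv; exact H.nonneg v ((hα n).trans hv.1)
    · intro n v hv; exact H.upper v ((hα n).trans hv.1)
    · intro σ hσ
      have hd := H.dev σ hσ
      have hcont : Continuous fun v => |BC.g v - D v| * Real.exp (-(σ * v)) :=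
        (BC.g_cont.sub H.cont).abs.mul (by fun_prop)
      simp only [intervalIntegral.integral_same, add_zero]
      refine summable_of_sum_range_le (c := ∫ v in Ici v0, |BC.g v - D v| * Real.exp (-(σ * v)))
        (fun n => intervalIntegral.integral_nonneg (hlt n).le fun v _ => by positivity) fun N => ?_
      rw [intervalIntegral.sum_integral_adjacent_intervals fun k _ => hcont.intervalIntegrable _ _, α0,
        intervalIntegral.integral_of_le (hα N)]
      refine setIntegral_mono_set hd (ae_of_all _ fun v => by positivity) ?_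
      exact (show Ioc v0 (α N) ⊆ Ici v0 from fun v hv => hv.1.le).eventuallyLE
  obtain ⟨W, hW, c, hc, hN⟩ := BC.as_main hC
  have hW1 : ∀ n, α n < W n := fun n => (hW n).1
  have hW2 : ∀ n, W n ≤ α (n + 1) := fun n => (hW n).2
  have hWm : StrictMono W := strictMono_nat_of_lt_succ fun n => (hW2 n).trans_lt (hW1 (n + 1))
  have hαT : Tendsto α atTop atTop := hC.tendsto
  have hWT : Tendsto W atTop atTop := tendsto_atTop_mono (fun n => (hW1 n).le) hαT
  refine ⟨W, hWm, fun n => (hα n).trans_lt (hW1 n), hWT, ?_, c, hc, hN⟩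
  intro v hv
  -- the first member beyond `v`
  have hex : ∃ n, v < W n := (hWT.eventually_gt_atTop v).exists
  have hset : {n : ℕ | W n ≤ v} = {n | n < Nat.find hex} := by
    ext n
    constructor
    · intro hn
      by_contra h
      have h1 := Nat.find_spec hex
      have h2 : W (Nat.find hex) ≤ W n := hWm.monotone (not_lt.1 h)
      have hn' : W n ≤ v := hn
      linarith
    · intro hn
      exact not_lt.1 (Nat.find_min hex hn)
  have hcard : {n : ℕ | W n ≤ v}.ncard = Nat.find hex := by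
    rw [hset]
    have : {n | n < Nat.find hex} = ((Finset.range (Nat.find hex) : Finset ℕ) : Set ℕ) := by
      ext n; simp
    rw [this, Set.ncard_coe_finset, Finset.card_range]
  rw [hcard]
  set N := Nat.find hex with hNdef
  have hub : v < W N := Nat.find_spec hex
  have hDnn : ∀ a b, v0 ≤ a → a ≤ b → 0 ≤ ∫ w in a..b, D w := fun a b ha hab =>
    intervalIntegral.integral_nonneg hab fun w hw => H.nonneg w (ha.trans hw.1)
  have hsplit : ∀ a b, v0 ≤ a → a ≤ b → ∫ w in v0..a, D w ≤ ∫ w in v0..b, D w := by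
    intro a b ha hab
    rw [← intervalIntegral.integral_add_adjacent_intervals (H.ii v0 a) (H.ii a b)]
    linarith [hDnn a b ha hab]
  have h1 : ∫ w in v0..v, D w ≤ N + 1 := by
    have := hsplit v (α (N + 1)) hv (hub.le.trans (hW2 N))
    have h4 := hmass (N + 1)
    push_cast at h4
    linarith
  have h2 : (N : ℝ) - 1 ≤ ∫ w in v0..v, D w := by
    rcases Nat.eq_zero_or_pos N with h | h
    · rw [h]
      have := hDnn v0 v le_rfl hv
      push_cast
      linarith
    · obtain ⟨M, hM⟩ : ∃ M, N = M + 1 := ⟨N - 1, by omega⟩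
      have h3 : W M ≤ v := not_lt.1 (Nat.find_min hex (by omega))
      have := hsplit (α M) v (hα M) ((hW1 M).le.trans h3)
      have h4 := hmass M
      rw [hM]; push_cast; linarith
  rw [abs_le]
  constructor <;> linarith

end Pool.Agent.H41.PM
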