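import Pool.Agent.H41.PM.Defs

/-! # Project PM: the relative density -/

set_option autoImplicit false

open MeasureTheory Filter Topology Set

namespace Pool.Agent.H41.PM

theorem phi_cont (x H : ℝ) : Continuous (phi x H) := by
  unfold phi
  fun_prop

theorem phi_nonneg (x H t : ℝ) : 0 ≤ phi x H t := le_max_left _ _

theorem phi_le_one (x H t : ℝ) : phi x H t ≤ 1 := by
  unfold phi
  exact max_le zero_le_one (min_le_left _ _)

theorem phi_eq_one {x H t : ℝ} (h1 : x ≤ t) (h2 : t ≤ x + H) : phi x H t = 1 := by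
  unfold phi
  rw [min_eq_left (le_min (by linarith) (by linarith)), max_eq_right zero_le_one]

theorem phi_eq_zero {x H t : ℝ} (h : t ≤ x - 1 ∨ x + H + 1 ≤ t) : phi x H t = 0 := by
  unfold phi
  rw [max_eq_left]
  rcases h with h | h
  · exact (min_le_right _ _).trans ((min_le_left _ _).trans (by linarith))
  · exact (min_le_right _ _).trans ((min_le_right _ _).trans (by linarith))

/-- the integral of `phi` over any interval -/
theorem phi_int {x H : ℝ} (hH : 0 ≤ H) {s t : ℝ} (hst : s ≤ t) :
    0 ≤ ∫ v in s..t, phi x H v ∧ ∫ v in s..t, phi x H v ≤ H + 2 := by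
  refine ⟨intervalIntegral.integral_nonneg hst fun v _ => phi_nonneg _ _ _, ?_⟩
  have hI : ∀ a b : ℝ, IntervalIntegrable (phi x H) volume a b := fun a b => (phi_cont x H).intervalIntegrable a b
  have h0 : ∀ a b : ℝ, a ≤ b → 0 ≤ ∫ v in a..b, phi x H v := fun a b hab =>
    intervalIntegral.integral_nonneg hab fun v _ => phi_nonneg _ _ _
  set a := min s (x - 1) with ha
  set b := max t (x + H + 1) with hb
  have e1 : ∫ v in a..b, phi x H v = (∫ v in a..s, phi x H v) + (∫ v in s..t, phi x H v) + ∫ v in t..b, phi x H v := by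
    rw [intervalIntegral.integral_add_adjacent_intervals (hI _ _) (hI _ _),
      intervalIntegral.integral_add_adjacent_intervals (hI _ _) (hI _ _)]
  have e2 : ∫ v in a..b, phi x H v = (∫ v in a..(x - 1), phi x H v) + (∫ v in (x - 1)..(x + H + 1), phi x H v) +
      ∫ v in (x + H + 1)..b, phi x H v := by
    rw [intervalIntegral.integral_add_adjacent_intervals (hI _ _) (hI _ _),
      intervalIntegral.integral_add_adjacent_intervals (hI _ _) (hI _ _)]
  have z1 : ∫ v in a..(x - 1), phi x H v = 0 := by
    rw [intervalIntegral.integral_congr (g := fun _ => 0), intervalIntegral.integral_zero]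
    intro v hv
    rw [uIcc_of_le (min_le_right _ _)] at hv
    exact phi_eq_zero (Or.inl hv.2)
  have z2 : ∫ v in (x + H + 1)..b, phi x H v = 0 := by
    rw [intervalIntegral.integral_congr (g := fun _ => 0), intervalIntegral.integral_zero]
    intro v hv
    rw [uIcc_of_le (le_max_right _ _)] at hv
    exact phi_eq_zero (Or.inr hv.1)
  have z3 : ∫ v in (x - 1)..(x + H + 1), phi x H v ≤ H + 2 := by
    have := intervalIntegral.integral_mono_on (by linarith : x - 1 ≤ x + H + 1) (hI _ _)
      (intervalIntegrable_const (c := (1 : ℝ))) (fun v _ => phi_le_one x H v)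
    refine this.trans ?_
    rw [intervalIntegral.integral_const]
    simp only [smul_eq_mul, mul_one]
    linarith
  have p1 := h0 a s (min_le_left _ _)
  have p2 := h0 t b (le_max_left _ _)
  linarith

section
variable {b d X : ℕ → ℝ}

lemma Zones.X_ge (H : Zones b d X) (j : ℕ) : Real.exp 8 * 16 ^ j ≤ X j := by
  induction j with
  | zero => simpa using H.start
  | succ j ih =>
    have := H.far j
    rw [pow_succ]
    linarith

lemma exp8 : (2000 : ℝ) ≤ Real.exp 8 := by
  have h : Real.exp 8 = Real.exp 1 ^ 8 := by rw [← Real.exp_nat_mul]; norm_num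
  rw [h]
  have := Real.exp_one_gt_d9
  calc (2000 : ℝ) ≤ 2.7 ^ 8 := by norm_num
    _ ≤ Real.exp 1 ^ 8 := pow_le_pow_left₀ (by norm_num) (by linarith) 8

lemma Zones.X_big (H : Zones b d X) (j : ℕ) : 2000 ≤ X j := by
  have h1 := H.X_ge j
  have h2 : (1 : ℝ) ≤ 16 ^ j := one_le_pow₀ (by norm_num)
  have h3 := exp8
  nlinarith

lemma Zones.lt (H : Zones b d X) {i j : ℕ} (hij : i < j) : 16 * X i ≤ X j := by
  induction j, hij using Nat.le_induction with
  | base => exact H.far i
  | succ j _ ih =>
    have := H.far j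
    have := H.X_big j
    linarith

lemma Zones.log_pos (H : Zones b d X) (j : ℕ) : 0 < Real.log (X j) :=
  Real.log_pos (by linarith [H.X_big j])

lemma Zones.H_nonneg (H : Zones b d X) (j : ℕ) : 0 ≤ Real.log (X j) ^ b j :=
  Real.rpow_nonneg (H.log_pos j).le _

/-- the length of the zone is at most the cube root -/
lemma Zones.cube (H : Zones b d X) (j : ℕ) : (1 + d j) * (Real.log (X j) ^ b j + 2) ≤ X j ^ (1 / 3 : ℝ) := by
  refine (H.short j).trans ?_
  refine Real.rpow_le_rpow_of_exponent_le (by linarith [H.X_big j]) ?_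
  apply one_div_le_one_div_of_le (by norm_num)
  have : (0 : ℝ) ≤ j := Nat.cast_nonneg j
  linarith

lemma cube_le {x : ℝ} (hx : 2000 ≤ x) : x ^ (1 / 3 : ℝ) ≤ x / 100 := by
  have h0 : 0 ≤ x := by linarith
  have h1 : 0 ≤ x ^ (1 / 3 : ℝ) := Real.rpow_nonneg h0 _
  have h2 : (x ^ (1 / 3 : ℝ)) ^ 3 = x := by
    rw [← Real.rpow_natCast, ← Real.rpow_mul h0]
    norm_num
  set y := x ^ (1 / 3 : ℝ) with hy
  have h3 : 10 ≤ y := by
    by_contra hc
    push Not at hc
    have : y ^ 3 < 10 ^ 3 := pow_lt_pow_left₀ hc h1 (by norm_num)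
    linarith
  rw [← h2]
  nlinarith [mul_nonneg h1 (sub_nonneg.2 h3), mul_nonneg h1 (mul_nonneg h1 h1)]

lemma Zones.short' (H : Zones b d X) (j : ℕ) : Real.log (X j) ^ b j + 2 ≤ X j / 100 := by
  have h1 := H.cube j
  have h2 := cube_le (H.X_big j)
  have h3 := H.d_nonneg j
  have h4 := H.H_nonneg j
  nlinarith

lemma Zones.phi_zero (H : Zones b d X) {j : ℕ} {t : ℝ} (h : t ≤ X j / 2 ∨ 2 * X j ≤ t) :
    phi (X j) (Real.log (X j) ^ b j) t = 0 := by
  have h1 := H.short' j
  have h2 := H.X_big j
  have h3 := H.H_nonneg j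
  apply phi_eq_zero
  rcases h with h | h
  · left; linarith
  · right; linarith

/-- near the zone `j` only this zone matters -/
theorem rel_near (H : Zones b d X) {j : ℕ} {t : ℝ} (h1 : X j / 4 ≤ t) (h2 : t ≤ 4 * X j) :
    rel b d X t = 1 + (d j - 1) * phi (X j) (Real.log (X j) ^ b j) t := by
  unfold rel
  rw [tsum_eq_single j]
  intro i hij
  rw [H.phi_zero, mul_zero]
  rcases lt_or_gt_of_ne hij with h | h
  · right
    have := H.lt h
    have := H.X_big j
    linarith
  · left
    have := H.lt h
    have := H.X_big j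
    linarith

/-- between the zones the density is one -/
theorem rel_far (H : Zones b d X) {t : ℝ}
    (h : ∀ j, t ≤ X j - 1 ∨ X j + Real.log (X j) ^ b j + 1 ≤ t) : rel b d X t = 1 := by
  have := H
  unfold rel
  rw [tsum_congr (g := fun _ => 0) (fun j => by rw [phi_eq_zero (h j), mul_zero]), tsum_zero, add_zero]

/-- every interval `[x, 2 x]`, `x ≥ 0`, meets at most one zone -/
theorem rel_alt (H : Zones b d X) {x : ℝ} (hx : 0 ≤ x) : (∀ t ∈ Icc x (2 * x), rel b d X t = 1) ∨
    ∃ j, X j / 4 ≤ x ∧ x ≤ 2 * X j := by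
  by_cases h : ∃ j, X j / 4 ≤ x ∧ x ≤ 2 * X j
  · exact Or.inr h
  · left
    push Not at h
    intro t ht
    apply rel_far H
    intro j
    have h1 := H.short' j
    have h2 := H.X_big j
    by_cases hj : X j / 4 ≤ x
    · right
      have := h j hj
      linarith [ht.1]
    · left
      push Not at hj
      linarith [ht.2]

theorem rel_of_le (H : Zones b d X) {t : ℝ} (ht : t ≤ 1) : rel b d X t = 1 := by
  apply rel_far H
  intro j
  left
  linarith [H.X_big j]

theorem rel_cont (H : Zones b d X) : Continuous (rel b d X) := by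
  rw [continuous_iff_continuousAt]
  intro t0
  by_cases h0 : t0 ≤ 0
  · have : rel b d X =ᶠ[𝓝 t0] fun _ => 1 := by
      filter_upwards [Iio_mem_nhds (show t0 < 1 by linarith)] with t ht
      exact rel_of_le H (le_of_lt ht)
    exact continuousAt_const.congr this.symm
  · push Not at h0
    rcases rel_alt H (x := 3 / 4 * t0) (by linarith) with h | ⟨j, h1, h2⟩
    · have : rel b d X =ᶠ[𝓝 t0] fun _ => 1 := by
        filter_upwards [Icc_mem_nhds (show 3 / 4 * t0 < t0 by linarith) (show t0 < 2 * (3 / 4 * t0) by linarith)] with t ht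
        exact h t ht
      exact continuousAt_const.congr this.symm
    · have hX := H.X_big j
      have : rel b d X =ᶠ[𝓝 t0] fun t => 1 + (d j - 1) * phi (X j) (Real.log (X j) ^ b j) t := by
        filter_upwards [Icc_mem_nhds (show X j / 4 < t0 by linarith) (show t0 < 4 * X j by linarith)] with t ht
        exact rel_near H ht.1 ht.2
      refine ContinuousAt.congr ?_ this.symm
      exact (continuous_const.add (continuous_const.mul (phi_cont _ _))).continuousAt

theorem rel_nonneg (H : Zones b d X) (t : ℝ) : 0 ≤ rel b d X t := by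
  by_cases h0 : t ≤ 0
  · rw [rel_of_le H (by linarith)]
    exact zero_le_one
  · push Not at h0
    rcases rel_alt H h0.le with h | ⟨j, h1, h2⟩
    · rw [h t ⟨le_rfl, by linarith⟩]
      exact zero_le_one
    · rw [rel_near H h1 (by linarith [H.X_big j])]
      have a1 := phi_nonneg (X j) (Real.log (X j) ^ b j) t
      have a2 := phi_le_one (X j) (Real.log (X j) ^ b j) t
      have a3 := H.d_nonneg j
      nlinarith

end

end Pool.Agent.H41.PM
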